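import Pool.Agent.Mg.F942673.G26f40a

section

/-! Pair sums of a Sidon graph that fill an affine subspace. -/

open Finset Module

namespace Pool.Agent.MP_942673_co

variable {n : ℕ}

/-- The graph of `G` is a Sidon set. -/
def Sid (G : (Fin n → ZMod 2) → (Fin n → ZMod 2)) : Prop :=
  ∀ x y z w, x + y = z + w → G x + G y = G z + G w → x = y ∨ x = z ∨ x = w

theorem sid_of_apn {F : (Fin n → ZMod 2) → (Fin n → ZMod 2)}
    (hF : ∀ a, a ≠ 0 → ∀ b, (univ.filter fun x => F (x + a) + F x = b).card ≤ 2) : Sid F := by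
  intro x y z w h1 h3
  have h2 := v_two (n := n)
  by_contra hne
  push Not at hne
  obtain ⟨ha, hb, hc⟩ := hne
  have hle := hF (x + y) (fun h => ha (v_add_eq_zero.1 h)) (F x + F y)
  have hzw : z ≠ w := by
    rintro rfl
    exact ha (v_add_eq_zero.1 (by rw [h1, v_add_self]))
  have e1 : x + (x + y) = y := by linear_combination x * h2
  have e2 : z + (x + y) = w := by linear_combination h1 + z * h2
  have e3 : w + (x + y) = z := by linear_combination h1 + w * h2
  have hsub : ({x, z, w} : Finset _) ⊆ univ.filter fun u => F (u + (x + y)) + F u = F x + F y := by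
    intro u hu
    simp only [mem_insert, mem_singleton] at hu
    rw [mem_filter]
    refine ⟨mem_univ _, ?_⟩
    rcases hu with rfl | rfl | rfl
    · rw [e1, add_comm]
    · rw [e2, h3, add_comm]
    · rw [e3, h3]
  have h3c : ({x, z, w} : Finset _).card = 3 :=
    Finset.card_eq_three.2 ⟨x, z, w, hb, hc, hzw, rfl⟩
  have := Finset.card_le_card hsub
  omega

theorem sum_id_eq_zero {r : ℕ} (hr : 2 ≤ r) : ∑ x : Fin r → ZMod 2, x = 0 := by
  funext i
  rw [Finset.sum_apply]
  have := MvPolynomial.sum_eval_eq_zero (K := ZMod 2) (σ := Fin r) (MvPolynomial.X i) (by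
    rw [MvPolynomial.totalDegree_X, ZMod.card, Fintype.card_fin]
    omega)
  simpa using this

section sub

variable {E : Type} [AddCommGroup E] [Module (ZMod 2) E] [Fintype E]

open Classical in
theorem card_sub (M : Submodule (ZMod 2) E) :
    (univ.filter fun e => e ∈ M).card = 2 ^ finrank (ZMod 2) M := by
  rw [← Fintype.card_subtype, Module.card_eq_pow_finrank (K := ZMod 2), ZMod.card]

open Classical in
theorem sum_sub (M : Submodule (ZMod 2) E) (hM : 2 ≤ finrank (ZMod 2) M) :
    ∑ e ∈ univ.filter fun e => e ∈ M, e = 0 := by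
  rw [Finset.sum_subtype (p := fun e => e ∈ M) _ (by simp) (fun e => e)]
  let b := (Module.finBasis (ZMod 2) M).equivFun
  have h : ∑ m : M, m = 0 := by
    rw [← Equiv.sum_comp b.symm.toEquiv]
    have := congrArg b.symm (sum_id_eq_zero hM)
    rw [map_sum, map_zero] at this
    exact this
  have := congrArg M.subtype h
  rwa [map_sum, map_zero] at this

end sub

theorem pair_sum {G : (Fin n → ZMod 2) → (Fin n → ZMod 2)} (hG : Sid G)
    (X : Finset (Fin n → ZMod 2)) (ι : (Fin n → ZMod 2) → (Fin n → ZMod 2))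
    (h1 : ∀ x ∈ X, ι x ∈ X) (h2 : ∀ x ∈ X, ι (ι x) = x) (h3 : ∀ x ∈ X, ι x ≠ x) :
    X.card = 2 * (X.image fun x => (x, G x) + (ι x, G (ι x))).card ∧
      ∑ x ∈ X, (x, G x) = ∑ e ∈ X.image fun x => (x, G x) + (ι x, G (ι x)), e := by
  have hf : ∀ x ∈ X, (X.filter fun y => (y, G y) + (ι y, G (ι y)) = (x, G x) + (ι x, G (ι x))) =
      {x, ι x} := by
    intro x hx
    ext y
    simp only [mem_filter, mem_insert, mem_singleton, Prod.mk_add_mk, Prod.mk.injEq]
    constructor
    · rintro ⟨hy, e1, e2⟩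
      rcases hG _ _ _ _ e1 e2 with h | h | h
      · exact absurd h.symm (h3 y hy)
      · exact Or.inl h
      · exact Or.inr h
    · rintro (rfl | rfl)
      · exact ⟨hx, rfl, rfl⟩
      · rw [h2 x hx]
        exact ⟨h1 x hx, add_comm _ _, add_comm _ _⟩
  constructor
  · rw [Finset.card_eq_sum_card_image (fun x => (x, G x) + (ι x, G (ι x))), mul_comm,
      ← smul_eq_mul, ← Finset.sum_const]
    refine Finset.sum_congr rfl fun e he => ?_
    obtain ⟨x, hx, rfl⟩ := mem_image.1 he
    rw [hf x hx, card_pair (h3 x hx).symm]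
  · rw [← Finset.sum_fiberwise_of_maps_to (g := fun x => (x, G x) + (ι x, G (ι x)))
      (t := X.image fun x => (x, G x) + (ι x, G (ι x))) fun x hx => mem_image_of_mem _ hx]
    refine Finset.sum_congr rfl fun e he => ?_
    obtain ⟨x, hx, rfl⟩ := mem_image.1 he
    rw [hf x hx, sum_pair (h3 x hx).symm]

theorem fill {G : (Fin n → ZMod 2) → (Fin n → ZMod 2)} (hG : Sid G)
    (X : Finset (Fin n → ZMod 2)) (ι : (Fin n → ZMod 2) → (Fin n → ZMod 2))
    (h1 : ∀ x ∈ X, ι x ∈ X) (h2 : ∀ x ∈ X, ι (ι x) = x) (h3 : ∀ x ∈ X, ι x ≠ x)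
    (M : Submodule (ZMod 2) ((Fin n → ZMod 2) × (Fin n → ZMod 2)))
    (c : (Fin n → ZMod 2) × (Fin n → ZMod 2))
    (hM : ∀ x ∈ X, (x, G x) + (ι x, G (ι x)) + c ∈ M) :
    X.card ≤ 2 * 2 ^ finrank (ZMod 2) M ∧ (2 * 2 ^ finrank (ZMod 2) M ≤ X.card →
      (∀ e, e + c ∈ M → ∃ x ∈ X, (x, G x) + (ι x, G (ι x)) = e) ∧
        (2 ≤ finrank (ZMod 2) M → ∑ x ∈ X, (x, G x) = 0)) := by
  classical
  obtain ⟨e1, e2⟩ := pair_sum hG X ι h1 h2 h3
  have hsub : (X.image fun x => (x, G x) + (ι x, G (ι x))) ⊆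
      (univ.filter fun e => e ∈ M).image fun e => e + c := by
    intro e he
    obtain ⟨x, hx, rfl⟩ := mem_image.1 he
    refine mem_image.2 ⟨_, mem_filter.2 ⟨mem_univ _, hM x hx⟩, ?_⟩
    rw [add_assoc, e_add_self, add_zero]
  have hc : ((univ.filter fun e => e ∈ M).image fun e => e + c).card =
      2 ^ finrank (ZMod 2) M := by
    rw [card_image_of_injective _ (add_left_injective c), card_sub]
  have hle := card_le_card hsub
  refine ⟨by omega, fun h => ?_⟩
  have heq := eq_of_subset_of_card_le hsub (by omega)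
  refine ⟨fun e he => ?_, fun h2 => ?_⟩
  · have : e ∈ X.image fun x => (x, G x) + (ι x, G (ι x)) := by
      rw [heq]
      refine mem_image.2 ⟨_, mem_filter.2 ⟨mem_univ _, he⟩, ?_⟩
      rw [add_assoc, e_add_self, add_zero]
    exact mem_image.1 this
  · rw [e2, heq, sum_image fun a _ b _ h => add_left_injective c h, sum_add_distrib,
      sum_sub M h2, zero_add, sum_const, card_sub]
    obtain ⟨k, hk⟩ : ∃ k, finrank (ZMod 2) M = k + 1 := ⟨finrank (ZMod 2) M - 1, by omega⟩
    rw [hk, pow_succ, mul_smul, two_smul, e_add_self, smul_zero]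

end Pool.Agent.MP_942673_co

end

section

/-! An involution of the graph that preserves the vertical direction forces the sum to vanish. -/

open Finset Module

namespace Pool.Agent.MP_942673_co

variable {n : ℕ}

theorem finrank_E : finrank (ZMod 2) ((Fin n → ZMod 2) × (Fin n → ZMod 2)) = n + n := by
  simp [Module.finrank_prod]

theorem finrank_split (W : Submodule (ZMod 2) ((Fin n → ZMod 2) × (Fin n → ZMod 2))) :
    finrank (ZMod 2) (W.map (LinearMap.fst (ZMod 2) _ _)) +
      finrank (ZMod 2) (W ⊓ LinearMap.ker (LinearMap.fst (ZMod 2) _ _) : Submodule _ _) =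
        finrank (ZMod 2) W := by
  have h := ((LinearMap.fst (ZMod 2) _ _).domRestrict W).finrank_range_add_finrank_ker
  rw [LinearMap.range_domRestrict, LinearMap.ker_domRestrict,
    ← Submodule.finrank_map_subtype_eq W, Submodule.map_comap_subtype] at h
  exact h

theorem finrank_V0 : finrank (ZMod 2) (LinearMap.ker
    (LinearMap.fst (ZMod 2) (Fin n → ZMod 2) (Fin n → ZMod 2))) = n := by
  have h := (LinearMap.fst (ZMod 2) (Fin n → ZMod 2)
    (Fin n → ZMod 2)).finrank_range_add_finrank_ker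
  rw [LinearMap.range_eq_top.2 Prod.fst_surjective, finrank_top, finrank_E] at h
  simp only [finrank_fintype_fun_eq_card, Fintype.card_fin] at h
  omega

theorem pow_le_iff {a b : ℕ} : 2 ^ a ≤ 2 * 2 ^ b ↔ a ≤ b + 1 := by
  rw [← pow_succ', Nat.pow_le_pow_iff_right (by norm_num)]

theorem pow_le_iff' {a b : ℕ} : 2 * 2 ^ a ≤ 2 ^ b ↔ a + 1 ≤ b := by
  rw [← pow_succ', Nat.pow_le_pow_iff_right (by norm_num)]

theorem inv_core (hn : 5 ≤ n) {G : (Fin n → ZMod 2) → (Fin n → ZMod 2)} (hG : Sid G)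
    (L : ((Fin n → ZMod 2) × (Fin n → ZMod 2)) →ₗ[ZMod 2] ((Fin n → ZMod 2) × (Fin n → ZMod 2)))
    (t : (Fin n → ZMod 2) × (Fin n → ZMod 2)) (hLL : ∀ p, L (L p) = 0) (hLt : L t = 0)
    (hV : ∀ y, (L (0, y)).1 = 0) (τ : (Fin n → ZMod 2) → (Fin n → ZMod 2))
    (hτ : ∀ x, (τ x, G (τ x)) = (x, G x) + L (x, G x) + t) (hne : ¬ (L = 0 ∧ t = 0)) :
    ∑ x, (x, G x) = 0 := by
  classical
  have h2 := v_two (n := n)
  have hE : (2 : (Fin n → ZMod 2) × (Fin n → ZMod 2)) = 0 := Prod.ext h2 h2
  let A : (Fin n → ZMod 2) →ₗ[ZMod 2] (Fin n → ZMod 2) :=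
    LinearMap.fst _ _ _ ∘ₗ L ∘ₗ LinearMap.inl _ _ _
  have hA : ∀ p, (L p).1 = A p.1 := fun p => by
    have : p = (p.1, 0) + (0, p.2) := by simp
    rw [this, map_add, Prod.fst_add, hV]
    simp [A]
  have hτ1 : ∀ x, τ x = x + A x + t.1 := fun x => by
    have := congrArg Prod.fst (hτ x)
    rwa [Prod.fst_add, Prod.fst_add, hA] at this
  have hττ : ∀ x, τ (τ x) = x := fun x => by
    have e := hτ (τ x)
    rw [hτ x, map_add, map_add, hLL, hLt] at e
    have e' : (τ (τ x), G (τ (τ x))) = (x, G x) := by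
      rw [e]; linear_combination (L (x, G x) + t) * hE
    exact congrArg Prod.fst e'
  have hd : ∀ x, (x, G x) + (τ x, G (τ x)) = L (x, G x) + t := fun x => by
    rw [hτ]; linear_combination (x, G x) * hE
  have hWK : LinearMap.range L ≤ LinearMap.ker L := by
    rintro _ ⟨p, rfl⟩; exact hLL p
  have hrk := L.finrank_range_add_finrank_ker
  rw [finrank_E] at hrk
  have hcU : (univ : Finset (Fin n → ZMod 2)).card = 2 ^ n := by rw [card_univ, card_V]
  by_cases hfix : ∃ x0, τ x0 = x0
  swap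
  · push Not at hfix
    have ht : t ∉ LinearMap.range L := by
      rintro ⟨p, rfl⟩
      refine hfix p.1 ?_
      rw [hτ1, hA]; linear_combination A p.1 * h2
    have hlt : LinearMap.range L < LinearMap.ker L :=
      lt_of_le_of_ne hWK fun h => ht (h ▸ hLt)
    have := Submodule.finrank_lt_finrank_of_lt hlt
    obtain ⟨f1, f2⟩ := fill hG univ τ (fun _ _ => mem_univ _) (fun x _ => hττ x)
      (fun x _ => hfix x) (LinearMap.range L) t fun x _ => by
        rw [hd, add_assoc, e_add_self, add_zero]; exact LinearMap.mem_range_self _ _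
    rw [hcU, pow_le_iff] at f1
    rw [hcU, pow_le_iff'] at f2
    exact (f2 (by omega)).2 (by omega)
  obtain ⟨x0, hx0⟩ := hfix
  have ht : L (x0, G x0) = t := by
    have := hd x0
    rw [hx0, e_add_self] at this
    linear_combination -this - t * hE
  have ht1 : t.1 = A x0 := by rw [← ht, hA]
  have hfx : ∀ x, τ x = x → L (x, G x) = t := fun x hx => by
    have := hd x
    rw [hx, e_add_self] at this
    linear_combination -this - t * hE
  let V0 := LinearMap.ker (LinearMap.fst (ZMod 2) (Fin n → ZMod 2) (Fin n → ZMod 2))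
  have haa : ∀ a x : Fin n → ZMod 2, x + a + a = x := fun a x => by
    rw [add_assoc, v_add_self, add_zero]
  by_cases hA0 : A = 0
  · have hid : ∀ x, τ x = x := fun x => by rw [hτ1, ht1, hA0]; simp
    have hlt : LinearMap.ker L ⊓ V0 < V0 := by
      refine lt_of_le_of_ne inf_le_right fun h => hne ?_
      have h0 : ∀ y, L (0, y) = 0 := fun y => by
        have : ((0, y) : (Fin n → ZMod 2) × (Fin n → ZMod 2)) ∈ LinearMap.ker L ⊓ V0 := by
          rw [h]; rfl
        exact this.1
      have h1 : ∀ x, L (x, 0) = t := fun x => by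
        rw [← hfx x (hid x), show (x, G x) = (x, 0) + (0, G x) by simp, map_add, h0, add_zero]
      have h3 : t = 0 := by rw [← h1 0]; exact h0 0
      refine ⟨LinearMap.ext fun p => ?_, h3⟩
      rw [show p = (p.1, 0) + (0, p.2) by simp, map_add, h0, h1, h3]; simp
    have hlt' := Submodule.finrank_lt_finrank_of_lt hlt
    rw [finrank_V0] at hlt'
    have ha : (1 : Fin n → ZMod 2) ≠ 0 := fun h => one_ne_zero (congrFun h ⟨0, by omega⟩)
    obtain ⟨f1, f2⟩ := fill hG univ (· + 1) (fun _ _ => mem_univ _) (fun x _ => haa 1 x)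
      (fun x _ h => ha (by simpa using h)) (LinearMap.ker L ⊓ V0) ((0, G 0) + (1, G 1))
      fun x _ => ⟨by
        simp only [SetLike.mem_coe, LinearMap.mem_ker, map_add, hfx _ (hid _), e_add_self], by
        show x + (x + 1) + (0 + 1) = 0
        linear_combination (x + 1) * h2⟩
    rw [hcU, pow_le_iff] at f1
    rw [hcU, pow_le_iff'] at f2
    exact (f2 (by omega)).2 (by omega)
  have hAA : ∀ x, A (A x) = 0 := fun x => by
    have e := hA (L (x, 0))
    rw [hLL, hA] at e
    exact e.symm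
  have hKK : LinearMap.range A ≤ LinearMap.ker A := by
    rintro _ ⟨p, rfl⟩; exact hAA p
  have hrA := A.finrank_range_add_finrank_ker
  simp only [finrank_fintype_fun_eq_card, Fintype.card_fin] at hrA
  have hKle := Submodule.finrank_mono hKK
  have hWle := Submodule.finrank_mono hWK
  have hK0 : 0 < finrank (ZMod 2) (LinearMap.range A) := by
    rw [Nat.pos_iff_ne_zero, Ne, Submodule.finrank_eq_zero, LinearMap.range_eq_bot]
    exact hA0
  have hmap : (LinearMap.range L).map (LinearMap.fst (ZMod 2) _ _) = LinearMap.range A := by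
    ext a
    constructor
    · rintro ⟨_, ⟨p, rfl⟩, rfl⟩
      exact ⟨p.1, (hA p).symm⟩
    · rintro ⟨x, rfl⟩
      exact ⟨_, ⟨(x, 0), rfl⟩, hA _⟩
  have hsp := finrank_split (LinearMap.range L)
  rw [hmap] at hsp
  change _ + finrank (ZMod 2) (LinearMap.range L ⊓ V0 : Submodule _ _) = _ at hsp
  let X : (Fin n → ZMod 2) → Finset (Fin n → ZMod 2) := fun a => univ.filter fun x => x + τ x = a
  have hX : ∀ a x, x ∈ X a ↔ A (x + x0) = a := fun a x => by
    simp only [X, mem_filter, mem_univ, true_and]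
    rw [hτ1, ht1, map_add, show x + (x + A x + A x0) = A x + A x0 by linear_combination x * h2]
  have hXτ : ∀ a, ∀ x ∈ X a, τ x = x + a := fun a x hx => by
    rw [← (mem_filter.1 hx).2]; linear_combination -x * h2
  have hXc : ∀ a ∈ LinearMap.range A, (X a).card = 2 ^ finrank (ZMod 2) (LinearMap.ker A) := by
    rintro _ ⟨z, rfl⟩
    rw [← card_sub]
    refine card_bij (fun x _ => x + x0 + z) (fun x hx => ?_) (fun a _ b _ h => by simpa using h)
      fun b hb => ⟨b + z + x0, ?_, by linear_combination (z + x0) * h2⟩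
    · rw [hX] at hx
      simp only [mem_filter, mem_univ, true_and, LinearMap.mem_ker]
      rw [map_add, hx, v_add_self]
    · simp only [mem_filter, mem_univ, true_and, LinearMap.mem_ker] at hb
      rw [hX, haa, map_add, hb, zero_add]
  have hXa : ∀ b, ∀ a ∈ LinearMap.range A, ∀ x ∈ X b, x + a ∈ X b := by
    rintro b _ ⟨z, rfl⟩ x hx
    rw [hX] at hx ⊢
    rw [add_right_comm, map_add, hx, hAA, add_zero]
  have hfill : ∀ a ∈ LinearMap.range A, a ≠ 0 → ∃ c, c ∈ LinearMap.range L ∧ c.1 = a ∧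
      (X a).card ≤ 2 * 2 ^ finrank (ZMod 2) (LinearMap.range L ⊓ V0 : Submodule _ _) ∧
      (2 * 2 ^ finrank (ZMod 2) (LinearMap.range L ⊓ V0 : Submodule _ _) ≤ (X a).card →
        (∀ e, e + c ∈ LinearMap.range L ⊓ V0 →
          ∃ x ∈ X a, (x, G x) + (x + a, G (x + a)) = e) ∧
        (2 ≤ finrank (ZMod 2) (LinearMap.range L ⊓ V0 : Submodule _ _) →
          ∑ x ∈ X a, (x, G x) = 0)) := by
    intro a ha ha0
    obtain ⟨z, hz⟩ := id ha
    refine ⟨L (z, 0), LinearMap.mem_range_self _ _, by rw [hA]; exact hz,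
      fill hG (X a) (· + a) (hXa a a ha) (fun x _ => haa a x)
        (fun x _ h => ha0 (by simpa using h)) (LinearMap.range L ⊓ V0) (L (z, 0))
        fun x hx => ⟨?_, ?_⟩⟩
    · rw [← hXτ a x hx, hd, ← ht, ← map_add, ← map_add]
      exact LinearMap.mem_range_self _ _
    · show x + (x + a) + (L (z, 0)).1 = 0
      rw [hA, hz]; linear_combination (x + a) * h2
  obtain ⟨a1, ha1, ha10⟩ := (Submodule.ne_bot_iff _).1 fun h => hA0 (LinearMap.range_eq_bot.1 h)
  obtain ⟨-, -, -, f1, -⟩ := hfill a1 ha1 ha10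
  rw [hXc a1 ha1, pow_le_iff] at f1
  have h00 : (0 : Fin n → ZMod 2) ∈ LinearMap.range A := zero_mem _
  have hX0 : ∀ x ∈ X 0, L (x, G x) = t := fun x hx => hfx x (by rw [hXτ 0 x hx, add_zero])
  by_cases hj : finrank (ZMod 2) (LinearMap.range L ⊓ V0 : Submodule _ _) <
      finrank (ZMod 2) (LinearMap.ker A)
  · exfalso
    have hdis : ∀ x ∈ X 0, ∀ y ∈ X 0, (x, G x) + (y, G y) ∈ LinearMap.range L → x = y := by
      intro x hx y hy hxy
      by_contra hne'
      have ha : x + y ∈ LinearMap.range A := by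
        rw [← hmap]; exact ⟨_, hxy, rfl⟩
      have ha0 : x + y ≠ 0 := fun h => hne' (v_add_eq_zero.1 h)
      obtain ⟨c, hc, hc1, -, f2⟩ := hfill _ ha ha0
      rw [hXc _ ha, pow_le_iff'] at f2
      obtain ⟨z, hz, e⟩ := (f2 (by omega)).1 ((x, G x) + (y, G y)) ⟨add_mem hxy hc, by
        show x + y + c.1 = 0
        rw [hc1, v_add_self]⟩
      have hz' := (hX _ _).1 hz
      rcases hG z (z + (x + y)) x y (congrArg Prod.fst e) (congrArg Prod.snd e) with h | h | h
      · exact ha0 (by simpa using h)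
      · rw [h, (hX _ _).1 hx] at hz'; exact ha0 hz'.symm
      · rw [h, (hX _ _).1 hy] at hz'; exact ha0 hz'.symm
    have hcard := card_le_card_of_injOn (s := X 0 ×ˢ univ.filter fun e => e ∈ LinearMap.range L)
      (t := univ.filter fun e => e ∈ LinearMap.ker L)
      (fun z => (z.1, G z.1) + (x0, G x0) + z.2) (fun z hz => by
        simp only [coe_product, Set.mem_prod, mem_coe, mem_filter, mem_univ, true_and] at hz
        simp only [coe_filter, mem_univ, true_and, Set.mem_ofPred_eq, LinearMap.mem_ker]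
        rw [map_add, map_add, hX0 _ hz.1, ht, e_add_self, zero_add]
        exact hWK hz.2) (fun z hz z' hz' e => by
        simp only [coe_product, Set.mem_prod, mem_coe, mem_filter, mem_univ, true_and] at hz hz'
        have e1 : (z.1, G z.1) + (z'.1, G z'.1) = z.2 + z'.2 := by
          linear_combination e + ((z'.1, G z'.1) - z.2) * hE
        have e2 := hdis _ hz.1 _ hz'.1 (e1 ▸ add_mem hz.2 hz'.2)
        refine Prod.ext e2 ?_
        simp only [e2] at e
        exact add_left_cancel e)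
    rw [card_product, card_sub, card_sub, hXc 0 h00, ← pow_add,
      Nat.pow_le_pow_iff_right (by norm_num)] at hcard
    omega
  have hWeq : LinearMap.range L = LinearMap.ker L :=
    Submodule.eq_of_le_of_finrank_le hWK (by omega)
  have hsum : ∀ a ∈ LinearMap.range A, ∑ x ∈ X a, (x, G x) = ∑ x ∈ X 0, (x, G x) := by
    intro a ha
    by_cases ha0 : a = 0
    · rw [ha0]
    obtain ⟨z, hz⟩ := id ha
    have hdj : Disjoint (X a) (X 0) := by
      rw [disjoint_left]
      intro x h1 h3
      exact ha0 (((hX _ _).1 h1).symm.trans ((hX _ _).1 h3))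
    obtain ⟨-, f2⟩ := fill hG (X a ∪ X 0) (· + a) (fun x hx => by
        rcases mem_union.1 hx with h | h
        · exact mem_union_left _ (hXa _ a ha x h)
        · exact mem_union_right _ (hXa _ a ha x h)) (fun x _ => haa a x)
      (fun x _ h => ha0 (by simpa using h)) (LinearMap.range L ⊓ V0) (L (z, 0))
      fun x hx => ⟨by
        refine add_mem ?_ (LinearMap.mem_range_self _ _)
        rcases mem_union.1 hx with h | h
        · rw [← hXτ a x h, hd, ← ht, ← map_add]
          exact LinearMap.mem_range_self _ _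
        · rw [hWeq, LinearMap.mem_ker, map_add, hX0 _ h, hX0 _ (hXa _ a ha x h), e_add_self], by
        show x + (x + a) + (L (z, 0)).1 = 0
        rw [hA, hz]; linear_combination (x + a) * h2⟩
    rw [card_union_of_disjoint hdj, hXc a ha, hXc 0 h00, ← two_mul] at f2
    have f3 := (f2 (Nat.mul_le_mul_left 2 (Nat.pow_le_pow_right (by norm_num) (by omega)))).2
      (by omega)
    rw [sum_union hdj] at f3
    linear_combination f3 - (∑ x ∈ X 0, (x, G x)) * hE
  rw [← sum_fiberwise_of_maps_to (g := fun x => x + τ x)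
    (t := univ.filter fun a => a ∈ LinearMap.range A) (fun x _ => by
      refine mem_filter.2 ⟨mem_univ _, x + x0, (hX _ _).1 ?_⟩
      exact mem_filter.2 ⟨mem_univ _, rfl⟩),
    sum_congr rfl fun a ha => hsum a (mem_filter.1 ha).2, sum_const, card_sub]
  obtain ⟨k, hk⟩ : ∃ k, finrank (ZMod 2) (LinearMap.range A) = k + 1 :=
    ⟨finrank (ZMod 2) (LinearMap.range A) - 1, by omega⟩
  rw [hk, pow_succ, mul_smul, two_smul, e_add_self, smul_zero]

end Pool.Agent.MP_942673_co

end

section

/-! Automorphisms of even order. -/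

open Finset

namespace Pool.Agent.MP_942673_co

variable {n : ℕ}

theorem sid_ccz {G F : (Fin n → ZMod 2) → (Fin n → ZMod 2)} (h : CCZ G F) (hF : Sid F) :
    Sid G := by
  obtain ⟨A, π, hπ, -⟩ := ccz_data h
  have h2 := v_two (n := n)
  intro x y z w e1 e2
  have e3 : (x, G x) + (y, G y) + (z, G z) = (w, G w) :=
    Prod.ext (by show x + y + z = w; linear_combination e1 + z * h2)
      (by show G x + G y + G z = G w; linear_combination e2 + G z * h2)
  have e4 := aff_three A (x, G x) (y, G y) (z, G z)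
  rw [e3, hπ, hπ, hπ, hπ] at e4
  have e5 : π w = π x + π y + π z := congrArg Prod.fst e4
  have e6 : F (π w) = F (π x) + F (π y) + F (π z) := congrArg Prod.snd e4
  simpa using hF (π x) (π y) (π z) (π w) (by linear_combination -e5 - π z * h2)
    (by linear_combination -e6 - F (π z) * h2)

theorem sum_ccz (hn : 1 ≤ n) {G F : (Fin n → ZMod 2) → (Fin n → ZMod 2)} (h : CCZ G F)
    (h0 : ∑ x, (x, G x) = 0) : ∑ x, F x = 0 := by
  obtain ⟨B, ρ, hρ, -⟩ := ccz_data h
  have hz : ∀ p : (Fin n → ZMod 2) × (Fin n → ZMod 2), ∑ _x : Fin n → ZMod 2, p = 0 := by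
    intro p
    obtain ⟨k, rfl⟩ : ∃ k, n = k + 1 := ⟨n - 1, by omega⟩
    rw [Finset.sum_const, Finset.card_univ, card_V, pow_succ, mul_smul, two_smul, e_add_self,
      smul_zero]
  have h1 : ∑ x, B (x, G x) = 0 := by
    have : ∀ x, B (x, G x) = B.linear (x, G x) + B 0 := by
      intro x
      rw [← aff_add, add_zero]
    simp only [this]
    rw [Finset.sum_add_distrib, hz, add_zero, ← map_sum, h0]
    exact map_zero _
  simp only [hρ] at h1
  rw [← prod_mk_sum, Equiv.sum_comp ρ F] at h1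
  exact (Prod.ext_iff.1 h1).2

theorem sum_eq_zero_even (hn : 5 ≤ n) {G : (Fin n → ZMod 2) → (Fin n → ZMod 2)} (hG : Sid G)
    (σ : ((Fin n → ZMod 2) × (Fin n → ZMod 2)) ≃ᵃ[ZMod 2] ((Fin n → ZMod 2) × (Fin n → ZMod 2)))
    (hV : ∀ y, (σ.linear (0, y)).1 = 0) (hS : σ '' {p | p.2 = G p.1} = {p | p.2 = G p.1})
    (hev : Even (orderOf σ)) : ∑ x, (x, G x) = 0 := by
  have hfin : Finite (((Fin n → ZMod 2) × (Fin n → ZMod 2)) ≃ᵃ[ZMod 2]
      ((Fin n → ZMod 2) × (Fin n → ZMod 2))) := Finite.of_injective _ DFunLike.coe_injective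
  have hpos := orderOf_pos σ
  obtain ⟨m, hm⟩ := hev
  have hpow : ∀ k : ℕ, (∀ p, p.1 = 0 → ((σ ^ k).linear p).1 = 0) ∧
      ∀ p, p.2 = G p.1 → ((σ ^ k) p).2 = G ((σ ^ k) p).1 := by
    intro k
    induction k with
    | zero => exact ⟨fun p hp => hp, fun p hp => hp⟩
    | succ k ih =>
      rw [pow_succ]
      refine ⟨fun p hp => ih.1 (σ.linear p) ?_, fun p hp => ih.2 (σ p) ?_⟩
      · rw [show p = (0, p.2) from Prod.ext hp rfl]; exact hV _
      · have : σ p ∈ {p : (Fin n → ZMod 2) × (Fin n → ZMod 2) | p.2 = G p.1} :=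
          hS ▸ Set.mem_image_of_mem σ hp
        exact this
  obtain ⟨h1, h2⟩ := hpow m
  have hρ : σ ^ m * σ ^ m = 1 := by rw [← pow_add, ← hm, pow_orderOf_eq_one]
  have hne : σ ^ m ≠ 1 := pow_ne_one_of_lt_orderOf (by omega) (by omega)
  generalize σ ^ m = ρ at h1 h2 hρ hne
  have hρρ : ∀ p, ρ (ρ p) = p := fun p => congrArg (· p) hρ
  have hap : ∀ p, ρ p = ρ.linear p + ρ 0 := fun p => by rw [← aff_add, add_zero]
  have ht : ρ.linear (ρ 0) + ρ 0 = 0 := by rw [← hap, hρρ]
  have hll : ∀ p, ρ.linear (ρ.linear p) = p := fun p => by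
    have := hρρ p
    rwa [hap p, aff_add, hρρ, add_zero] at this
  refine inv_core hn hG (ρ.linear.toLinearMap + LinearMap.id) (ρ 0) (fun p => ?_) ht
    (fun y => ?_) (fun x => (ρ (x, G x)).1) (fun x => ?_) ?_
  · show ρ.linear (ρ.linear p + p) + (ρ.linear p + p) = 0
    rw [map_add, hll, add_comm p, e_add_self]
  · show (ρ.linear (0, y)).1 + 0 = 0
    rw [h1 _ rfl, add_zero]
  · show _ = (x, G x) + (ρ.linear (x, G x) + (x, G x)) + ρ 0
    rw [← h2 _ rfl, add_comm (ρ.linear _), ← add_assoc, e_add_self, zero_add, ← hap]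
  · rintro ⟨e1, e2⟩
    refine hne (AffineEquiv.ext fun p => ?_)
    have e3 : ρ.linear p + p = 0 := congrArg (· p) e1
    show ρ p = p
    rw [hap, e2, add_zero, ← add_zero (ρ.linear p), ← e_add_self p, ← add_assoc, e3, zero_add]

end Pool.Agent.MP_942673_co

end
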