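import Mathlib
import Pool.Agent.Mg.F942673a.Ga73294

section

/-! Boolean functions compatible with the planes on which the inverse map sums to `0` or `1`. -/

open Finset

namespace Pool.Agent.MP_942673_co.Iv

variable {K : Type} [Field K] [CharP K 2] [Fintype K] [DecidableEq K]

/-- the points covered by the pencil of planes through `0` -/
def cov (K : Type) [Field K] [Fintype K] [DecidableEq K] : Finset K :=
  univ.filter fun x => x ≠ 0 ∧ ∃ t, (t ^ 2 + t) * (x + 1) = 1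

theorem cov_sum (γ : K → ZMod 2) (c : ZMod 2)
    (h : ∀ x t : K, x ≠ 0 → (t ^ 2 + t) * (x + 1) = 1 → γ x + γ (t * x) + γ ((t + 1) * x) = c) :
    ∑ x ∈ cov K, γ x = (cov K).card * c := by
  have h2 : (2 : K) = 0 := CharTwo.two_eq_zero
  have key : ∑ x ∈ cov K, (γ x + c) = 0 := by
    rw [← sum_fiberwise_of_maps_to (g := fun x => x ^ 3 / (x + 1))
      (fun x hx => mem_image_of_mem _ hx)]
    refine sum_eq_zero fun σ hσ => ?_
    obtain ⟨x, hx, rfl⟩ := mem_image.1 hσ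
    obtain ⟨hx0, t, ht⟩ := (mem_filter.1 hx).2
    have ht0 : t ≠ 0 := by rintro rfl; simp at ht
    have ht1 : t + 1 ≠ 0 := fun e => by
      rw [show t ^ 2 + t = t * (t + 1) by ring, e] at ht; simp at ht
    have hx1 : x + 1 ≠ 0 := right_ne_zero_of_mul_eq_one ht
    have e1 : (t⁻¹ ^ 2 + t⁻¹) * (t * x + 1) = 1 := by
      field_simp
      linear_combination ht + (1 - t ^ 2) * h2
    have e2 : ((t + 1)⁻¹ ^ 2 + (t + 1)⁻¹) * ((t + 1) * x + 1) = 1 := by
      field_simp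
      linear_combination ht + ((t + 1) * x - t ^ 2 - t + 1) * h2
    have hf : (cov K).filter (fun y => y ^ 3 / (y + 1) = x ^ 3 / (x + 1)) =
        {x, t * x, (t + 1) * x} := by
      ext y
      simp only [cov, mem_filter, mem_univ, true_and, mem_insert, mem_singleton]
      constructor
      · rintro ⟨⟨-, u, hu⟩, e⟩
        rw [div_eq_div_iff (right_ne_zero_of_mul_eq_one hu) hx1] at e
        have : (x + 1) * ((y - x) * ((y - t * x) * (y - (t + 1) * x))) = 0 := by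
          grind
        simpa only [mul_eq_zero, hx1, false_or, sub_eq_zero] using this
      · rintro (rfl | rfl | rfl)
        · exact ⟨⟨hx0, t, ht⟩, rfl⟩
        · refine ⟨⟨mul_ne_zero ht0 hx0, _, e1⟩, ?_⟩
          rw [div_eq_div_iff (right_ne_zero_of_mul_eq_one e1) hx1]
          grind
        · refine ⟨⟨mul_ne_zero ht1 hx0, _, e2⟩, ?_⟩
          rw [div_eq_div_iff (right_ne_zero_of_mul_eq_one e2) hx1]
          grind
    have n1 : x ≠ t * x := fun e => mul_ne_zero ht1 hx0 (by grind)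
    have n2 : x ≠ (t + 1) * x := fun e => mul_ne_zero ht0 hx0 (by grind)
    have n3 : t * x ≠ (t + 1) * x := fun e => hx0 (by grind)
    rw [hf, sum_insert (by simp only [mem_insert, mem_singleton]; tauto), sum_pair n3]
    linear_combination h x t hx0 ht + 2 * c * (CharTwo.two_eq_zero (R := ZMod 2))
  rw [sum_add_distrib, sum_const, nsmul_eq_mul] at key
  exact (CharTwo.add_eq_zero).1 key

omit [DecidableEq K] in
theorem as_two (h1 : ∀ t : K, t ^ 2 + t ≠ 1) (y : K) :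
    (∃ t, t ^ 2 + t = y + 1) ↔ ¬ ∃ t, t ^ 2 + t = y := by
  let φ : K →+ K := ⟨⟨fun t => t ^ 2 + t, by simp⟩, fun a b => by
    simp only [CharTwo.add_sq]; ring⟩
  have hk : Nat.card φ.ker = 2 := by
    rw [Nat.card_eq_two_iff]
    refine ⟨0, ⟨1, by simp [φ, AddMonoidHom.mem_ker, CharTwo.add_self_eq_zero]⟩,
      fun e => zero_ne_one (congrArg Subtype.val e), Set.eq_univ_of_forall fun ⟨t, ht⟩ => ?_⟩
    have : t * (t - 1) = 0 := by
      have h2 : (2 : K) = 0 := CharTwo.two_eq_zero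
      have : t ^ 2 + t = 0 := ht
      grind
    simpa [Subtype.ext_iff, sub_eq_zero] using this
  have := AddSubgroup.add_mem_iff_of_index_two (AddSubgroup.index_range.trans hk) (a := y) (b := 1)
  rw [iff_false_intro (show 1 ∉ φ.range from fun ⟨t, ht⟩ => h1 t ht), iff_false] at this
  exact this

theorem sum_zero (hq : 4 ∣ Fintype.card K) (hq' : 4 < Fintype.card K) (g : K → ZMod 2)
    (h0 : ∀ a b c d : K, a ≠ b → a ≠ c → a ≠ d → a + b = c + d →
      a⁻¹ + b⁻¹ + c⁻¹ + d⁻¹ = 0 → g a + g b + g c + g d = 1)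
    (h1 : ∀ a b c d : K, a ≠ b → a ≠ c → a ≠ d → a + b = c + d →
      a⁻¹ + b⁻¹ + c⁻¹ + d⁻¹ = 1 → g a + g b + g c + g d = 0) : ∑ x, g x = 0 := by
  have h2 : (2 : K) = 0 := CharTwo.two_eq_zero
  have hinv : ∀ x t : K, x ≠ 0 → (t ^ 2 + t) * (x + 1) = 1 → t ≠ 0 ∧ t + 1 ≠ 0 ∧
      x⁻¹ + (t * x)⁻¹ + ((t + 1) * x)⁻¹ = 1 := fun x t hx ht => by
    have ht0 : t ≠ 0 := by rintro rfl; simp at ht
    have ht1 : t + 1 ≠ 0 := fun e => by
      rw [show t ^ 2 + t = t * (t + 1) by ring, e] at ht; simp at ht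
    refine ⟨ht0, ht1, ?_⟩
    field_simp
    grind
  have p0 : ∀ x t : K, x ≠ 0 → (t ^ 2 + t) * (x + 1) = 1 →
      g 0 + g x + g (t * x) + g ((t + 1) * x) = 0 := fun x t hx ht => by
    obtain ⟨a, b, c⟩ := hinv x t hx ht
    exact h1 _ _ _ _ hx.symm (mul_ne_zero a hx).symm (mul_ne_zero b hx).symm (by grind)
      (by rw [inv_zero, zero_add, c])
  by_cases hω : ∃ ω : K, ω ^ 2 + ω = 1
  · exfalso
    obtain ⟨ω, hω⟩ := hω
    obtain ⟨t, -, ht⟩ : ∃ t ∈ (univ : Finset K), t ∉ ({0, 1, ω, ω + 1} : Finset K) :=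
      exists_mem_notMem_of_card_lt_card (lt_of_le_of_lt card_le_four hq')
    simp only [mem_insert, mem_singleton, not_or] at ht
    obtain ⟨a0, a1, a2, a3⟩ := ht
    have b0 : t ^ 2 + t ≠ 0 := fun e => by grind
    obtain ⟨x, hx⟩ : ∃ x : K, (t ^ 2 + t) * (x + 1) = 1 :=
      ⟨(t ^ 2 + t)⁻¹ - 1, by rw [sub_add_cancel, mul_inv_cancel₀ b0]⟩
    have hx0 : x ≠ 0 := fun e => by grind
    have w0 : ω ≠ 0 := fun e => by grind
    have w1 : ω + 1 ≠ 0 := fun e => by grind
    have e0 : x⁻¹ + (ω * x)⁻¹ + ((ω + 1) * x)⁻¹ = 0 := by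
      field_simp
      grind
    have e1 := p0 x t hx0 hx
    have e2 := h0 0 x (ω * x) ((ω + 1) * x) hx0.symm (mul_ne_zero w0 hx0).symm
      (mul_ne_zero w1 hx0).symm (by grind) (by rw [inv_zero, zero_add, e0])
    have e3 := h1 (t * x) ((t + 1) * x) (ω * x) ((ω + 1) * x) (fun e => hx0 (by grind))
      (fun e => a2 (mul_right_cancel₀ hx0 e)) (fun e => a3 (mul_right_cancel₀ hx0 e))
      (by grind)
      (by have := (hinv x t hx0 hx).2.2; grind)
    exact one_ne_zero (α := ZMod 2) (by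
      linear_combination e1 + e3 - e2 - (g (t * x) + g ((t + 1) * x)) *
        CharTwo.two_eq_zero (R := ZMod 2))
  push Not at hω
  have p1 : ∀ x t : K, x ≠ 0 → (t ^ 2 + t) * (x + 1) = 1 →
      g 1 + g x⁻¹ + g (t * x)⁻¹ + g ((t + 1) * x)⁻¹ = 0 := fun x t hx ht => by
    obtain ⟨a, b, c⟩ := hinv x t hx ht
    refine h1 _ _ _ _ (fun e => ?_) (fun e => ?_) (fun e => ?_) (by grind)
      (by simp only [inv_inv, inv_one]; grind)
    all_goals
      rw [eq_comm, inv_eq_one] at e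
      grind
  have hc : ∀ x : K, x ≠ 0 → x ≠ 1 → (x⁻¹ ∈ cov K ↔ x ∉ cov K) := fun x hx hx1 => by
    have a1 : x + 1 ≠ 0 := fun e => hx1 (by grind)
    have := as_two hω (x + 1)⁻¹
    simp only [cov, mem_filter, mem_univ, true_and, ne_eq, inv_eq_zero, hx, not_false_eq_true]
    refine (exists_congr fun t => ?_).trans (this.trans (not_congr (exists_congr fun t => ?_)))
    · field_simp
      constructor <;> intro <;> grind
    · field_simp
  have hs : ∀ {M : Type} [AddCommMonoid M] (γ : K → M),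
      ∑ x, γ x = γ 0 + γ 1 + ∑ x ∈ cov K, (γ x + γ x⁻¹) := by
    intro M _ γ
    have c0 : (0 : K) ∉ cov K := by simp [cov]
    have c1 : (1 : K) ∉ cov K := by simp [cov, CharTwo.add_self_eq_zero]
    rw [sum_add_distrib, ← sum_add_sum_compl (cov K), ← add_sum_erase _ _ (mem_compl.2 c0),
      ← add_sum_erase _ _ (mem_erase.2 ⟨one_ne_zero, mem_compl.2 c1⟩),
      sum_nbij' (s := ((cov K)ᶜ.erase 0).erase 1) (t := cov K) (g := fun x => γ x⁻¹)
        (·⁻¹) (·⁻¹) ?_ ?_ (by simp) (by simp) (by simp)]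
    · abel
    · intro x hx
      simp only [mem_erase, mem_compl] at hx
      exact (hc x hx.2.1 hx.1).2 hx.2.2
    · intro x hx
      have a0 : x⁻¹ ≠ 0 := inv_ne_zero fun e => c0 (e ▸ hx)
      have a1 : x⁻¹ ≠ 1 := fun e => c1 (inv_eq_one.1 e ▸ hx)
      simp only [mem_erase, mem_compl]
      exact ⟨a1, a0, (hc _ a0 a1).1 (by rwa [inv_inv])⟩
  have hodd : ((cov K).card : ZMod 2) = 1 := by
    have := hs (fun _ => (1 : ℕ))
    simp only [sum_const, card_univ, smul_eq_mul] at this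
    rw [ZMod.natCast_eq_one_iff_odd, Nat.odd_iff]
    omega
  rw [hs, cov_sum (fun x => g x + g x⁻¹) (g 0 + g 1) fun x t hx ht => by
    linear_combination p0 x t hx ht + p1 x t hx ht - (g 0 + g 1) *
      CharTwo.two_eq_zero (R := ZMod 2), hodd,
    one_mul, CharTwo.add_self_eq_zero]

end Pool.Agent.MP_942673_co.Iv

end

section

/-! Switching neighbours of the inverse map. -/

open Finset

namespace Pool.Agent.MP_942673_co

theorem sum_eq_zero_inv {n : ℕ} (hn : 3 ≤ n) {K : Type} [Field K] (e : K ≃+ (Fin n → ZMod 2))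
    (s : Fin n → ZMod 2) (f : (Fin n → ZMod 2) → ZMod 2)
    (hG : Sid fun x => e (e.symm x)⁻¹ + f x • s) :
    ∑ x, (x, e (e.symm x)⁻¹ + f x • s) = 0 := by
  classical
  let _ : Fintype K := Fintype.ofEquiv _ e.toEquiv.symm
  have hc : Fintype.card K = 2 ^ n := by rw [Fintype.card_congr e.toEquiv, card_V]
  have : CharP K 2 := CharTwo.of_one_ne_zero_of_two_eq_zero one_ne_zero (e.injective (by
    rw [← one_add_one_eq_two (R := K), map_add, v_add_self, map_zero]))
  have hid := sum_id_eq_zero (r := n) (by omega)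
  have h1 : ∑ x : Fin n → ZMod 2, e (e.symm x)⁻¹ = 0 :=
    (Equiv.sum_comp (e.symm.toEquiv.trans ((Equiv.inv K).trans e.toEquiv)) (fun x => x)).trans hid
  suffices h : (∑ x, f x) • s = 0 by
    rw [← prod_mk_sum, sum_add_distrib, ← sum_smul, h, h1, hid, add_zero]
    rfl
  by_cases hs : s = 0
  · rw [hs, smul_zero]
  obtain ⟨σ, rfl⟩ := e.surjective s
  have hσ : σ⁻¹ ≠ 0 := inv_ne_zero fun h => hs (by rw [h, map_zero])
  have key : ∀ a b c d : K, a ≠ b → a ≠ c → a ≠ d → a + b = c + d →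
      e (σ * (a⁻¹ + b⁻¹ + c⁻¹ + d⁻¹)) ≠ (f (e (σ⁻¹ * a)) + f (e (σ⁻¹ * b)) + f (e (σ⁻¹ * c)) +
        f (e (σ⁻¹ * d))) • e σ := fun a b c d h1 h2 h3 h4 h5 => by
    have := hG (e (σ⁻¹ * a)) (e (σ⁻¹ * b)) (e (σ⁻¹ * c)) (e (σ⁻¹ * d))
      (by rw [← map_add, ← map_add, ← mul_add, ← mul_add, h4]) (by
        simp only [AddEquiv.symm_apply_apply, mul_inv, inv_inv, mul_add, map_add, add_smul] at h5 ⊢
        linear_combination h5 + (f (e (σ⁻¹ * a)) • e σ + f (e (σ⁻¹ * b)) • e σ - e (σ * c⁻¹) -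
          e (σ * d⁻¹)) * v_two (n := n))
    simp only [e.apply_eq_iff_eq, mul_right_inj' hσ, h1, h2, h3, or_self] at this
  obtain ⟨m, rfl⟩ : ∃ m, n = m + 3 := ⟨n - 3, by omega⟩
  have := Iv.sum_zero (K := K) ⟨2 * 2 ^ m, by rw [hc]; ring⟩
    (by rw [hc, pow_add]; have := Nat.two_pow_pos m; omega) (fun y => f (e (σ⁻¹ * y)))
    (fun a b c d h1 h2 h3 h4 h5 => (z2_cases _).resolve_left fun h => key a b c d h1 h2 h3 h4
      (by rw [h5, h, mul_zero, map_zero, zero_smul]))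
    (fun a b c d h1 h2 h3 h4 h5 => (z2_cases _).resolve_right fun h => key a b c d h1 h2 h3 h4
      (by rw [h5, h, mul_one, one_smul]))
  rw [← Equiv.sum_comp ((Equiv.mulLeft₀ _ hσ).trans e.toEquiv) f]
  exact smul_eq_zero_of_left this _

end Pool.Agent.MP_942673_co

end
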