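import Mathlib
import Pool.Agent.Mg.F942673a.Ga73294

section

/-! Add-with-carry analysis for four disjoint zero-sum blocks of the Dobbertin exponent. -/

open Finset

namespace Pool.Agent.MP_942673_co.Dob

/-- number of marked positions in the residue class of `i` modulo `k` -/
def cl (k : ℕ) (a : ℕ → ℤ) (i : ℕ) : ℤ :=
  a i + a (i + k) + a (i + 2 * k) + a (i + 3 * k) + a (i + 4 * k)

/-- one block: digits `a`, `b` and carries `κ`, all of period `5 k` -/
structure Blk (k : ℕ) (a b κ : ℕ → ℤ) : Prop where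
  a0 : ∀ i, 0 ≤ a i
  a1 : ∀ i, a i ≤ 1
  b0 : ∀ i, 0 ≤ b i
  k0 : ∀ i, 0 ≤ κ i
  pa : ∀ i, a (i + 5 * k) = a i
  pk : ∀ i, κ (i + 5 * k) = κ i
  rc : ∀ i, 2 * κ (i + 1) = κ i + cl k a i + 2 * b i - 2 * a i
  ne : ∃ i, a i = 1 ∨ b i = 1

variable {k : ℕ} {a b κ : ℕ → ℤ}

theorem Blk.cl_step (h : Blk k a b κ) (i : ℕ) : cl k a (i + k) = cl k a i := by
  have := h.pa i
  simp only [cl]
  rw [show i + k + k = i + 2 * k by ring, show i + k + 2 * k = i + 3 * k by ring,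
    show i + k + 3 * k = i + 4 * k by ring, show i + k + 4 * k = i + 5 * k by ring, this]
  ring

theorem Blk.cl_mul (h : Blk k a b κ) (i s : ℕ) : cl k a (i + s * k) = cl k a i := by
  induction s with
  | zero => simp
  | succ s ih => rw [show i + (s + 1) * k = i + s * k + k by ring, h.cl_step, ih]

theorem back {P : ℕ → Prop} {N : ℕ} (hN : 0 < N) (hp : ∀ i, P i → P (i + N))
    (hs : ∀ i, P (i + 1) → P i) {i₀ : ℕ} (h : P i₀) (i : ℕ) : P i := by
  have h1 : ∀ m, P (i₀ + m * N) := fun m => by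
    induction m with
    | zero => simpa using h
    | succ m ih => rw [show i₀ + (m + 1) * N = i₀ + m * N + N by ring]; exact hp _ ih
  have h2 : ∀ r, P (i + r) → P i := fun r => by
    induction r with
    | zero => exact id
    | succ r ih => exact fun h => ih (hs _ h)
  have h3 : i ≤ i₀ + i * N := by nlinarith
  obtain ⟨r, hr⟩ := Nat.exists_eq_add_of_le h3
  exact h2 r (hr ▸ h1 i)

theorem Blk.not_all (h : Blk k a b κ) : ¬ ∀ i, κ i = 0 := by
  intro h0
  have e : ∀ i, cl k a i + 2 * b i = 2 * a i := fun i => by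
    have := h.rc i
    rw [h0, h0] at this
    omega
  obtain ⟨i, hi⟩ := h.ne
  have e0 := e i
  have e1 := e (i + k)
  have e2 := e (i + 2 * k)
  have e3 := e (i + 3 * k)
  rw [h.cl_step] at e1
  rw [h.cl_mul] at e2 e3
  have := h.a0 i; have := h.a0 (i + k); have := h.a0 (i + 2 * k); have := h.a0 (i + 3 * k)
  have := h.a0 (i + 4 * k)
  have := h.a1 i; have := h.a1 (i + k); have := h.a1 (i + 2 * k); have := h.a1 (i + 3 * k)
  have := h.b0 i; have := h.b0 (i + k); have := h.b0 (i + 2 * k); have := h.b0 (i + 3 * k)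
  simp only [cl] at e0 e1 e2 e3
  omega

theorem Blk.two_zero (hk : 0 < k) (h : Blk k a b κ) (i s : ℕ) (hs : 0 < s) (hs' : s < 5) :
    1 ≤ κ i ∨ 1 ≤ κ (i + s * k) := by
  by_contra hc
  have h1 := h.k0 i
  have h2 := h.k0 (i + s * k)
  refine h.not_all fun j => (back (P := fun i => κ i = 0 ∧ κ (i + s * k) = 0) (N := 5 * k)
    (by omega) (fun i hi => ?_) (fun i hi => ?_) (i₀ := i) ⟨by omega, by omega⟩ j).1
  · rw [h.pk, add_right_comm, h.pk]; exact hi
  · have e1 := h.rc i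
    have e2 := h.rc (i + s * k)
    rw [h.cl_mul, add_right_comm, hi.2] at e2
    rw [hi.1] at e1
    have := h.a0 i; have := h.a0 (i + k); have := h.a0 (i + 2 * k); have := h.a0 (i + 3 * k)
    have := h.a0 (i + 4 * k)
    have := h.a1 i; have := h.a1 (i + s * k); have := h.b0 i; have := h.b0 (i + s * k)
    have := h.k0 i; have := h.k0 (i + s * k)
    simp only [cl] at e1 e2
    interval_cases s <;> (try simp only [one_mul] at *) <;> omega

theorem Blk.par (h : Blk k a b κ) (i s : ℕ) : κ (i + s * k) % 2 = κ i % 2 := by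
  have e1 := h.rc i
  have e2 := h.rc (i + s * k)
  rw [h.cl_mul] at e2
  omega

theorem Blk.pairs (hk : 0 < k) (h : Blk k a b κ) (i s t : ℕ) (hs : s < t) (ht : t < 5) :
    1 ≤ κ (i + s * k) ∨ 1 ≤ κ (i + t * k) := by
  obtain ⟨r, rfl⟩ := Nat.exists_eq_add_of_lt hs
  have := h.two_zero hk (i + s * k) (r + 1) (by omega) (by omega)
  rwa [show i + s * k + (r + 1) * k = i + (s + r + 1) * k by ring] at this

theorem Blk.five (hk : 0 < k) (h : Blk k a b κ) (i : ℕ) :
    (1 ≤ κ (i + k) ∧ 1 ≤ κ (i + 2 * k) ∧ 1 ≤ κ (i + 3 * k) ∧ 1 ≤ κ (i + 4 * k)) ∨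
    (1 ≤ κ i ∧ 1 ≤ κ (i + 2 * k) ∧ 1 ≤ κ (i + 3 * k) ∧ 1 ≤ κ (i + 4 * k)) ∨
    (1 ≤ κ i ∧ 1 ≤ κ (i + k) ∧ 1 ≤ κ (i + 3 * k) ∧ 1 ≤ κ (i + 4 * k)) ∨
    (1 ≤ κ i ∧ 1 ≤ κ (i + k) ∧ 1 ≤ κ (i + 2 * k) ∧ 1 ≤ κ (i + 4 * k)) ∨
    (1 ≤ κ i ∧ 1 ≤ κ (i + k) ∧ 1 ≤ κ (i + 2 * k) ∧ 1 ≤ κ (i + 3 * k)) := by
  have := h.pairs hk i 0 1 (by omega) (by omega); have := h.pairs hk i 0 2 (by omega) (by omega)
  have := h.pairs hk i 0 3 (by omega) (by omega); have := h.pairs hk i 0 4 (by omega) (by omega)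
  have := h.pairs hk i 1 2 (by omega) (by omega); have := h.pairs hk i 1 3 (by omega) (by omega)
  have := h.pairs hk i 1 4 (by omega) (by omega); have := h.pairs hk i 2 3 (by omega) (by omega)
  have := h.pairs hk i 2 4 (by omega) (by omega); have := h.pairs hk i 3 4 (by omega) (by omega)
  simp only [zero_mul, add_zero, one_mul] at *
  by_cases h0 : 1 ≤ κ i <;> by_cases h1 : 1 ≤ κ (i + k) <;> by_cases h2 : 1 ≤ κ (i + 2 * k) <;>
    by_cases h3 : 1 ≤ κ (i + 3 * k) <;> by_cases h4 : 1 ≤ κ (i + 4 * k) <;>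
    simp only [h0, h1, h2, h3, h4, and_self, or_self, or_true, and_true,
      or_false, and_false] at *

theorem Blk.mass (hk : 0 < k) (h : Blk k a b κ) (i : ℕ) : 8 - 3 * (κ i % 2) ≤ cl k κ i := by
  have p1 := h.par i 1; have p2 := h.par i 2; have p3 := h.par i 3; have p4 := h.par i 4
  have := h.k0 i; have := h.k0 (i + k); have := h.k0 (i + 2 * k); have := h.k0 (i + 3 * k)
  have := h.k0 (i + 4 * k)
  simp only [cl, one_mul] at *
  rcases h.five hk i with h5 | h5 | h5 | h5 | h5 <;> omega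

theorem Blk.small (hk : 0 < k) (h : Blk k a b κ) (i : ℕ) (h0 : a i = 0)
    (h1 : ∀ s, 0 < s → s < 5 → κ (i + 1 + s * k) = 1) : cl k a i ≤ 1 := by
  have e : ∀ s, 0 < s → s < 5 →
      2 = κ (i + s * k) + cl k a i + 2 * b (i + s * k) - 2 * a (i + s * k) := fun s h2 h3 => by
    have := h.rc (i + s * k)
    rwa [h.cl_mul, add_right_comm, h1 s h2 h3] at this
  have e1 := e 1 (by omega) (by omega); have e2 := e 2 (by omega) (by omega)
  have e3 := e 3 (by omega) (by omega); have e4 := e 4 (by omega) (by omega)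
  have := h.k0 (i + k); have := h.k0 (i + 2 * k); have := h.k0 (i + 3 * k)
  have := h.k0 (i + 4 * k)
  have := h.b0 (i + k); have := h.b0 (i + 2 * k); have := h.b0 (i + 3 * k)
  have := h.b0 (i + 4 * k)
  have := h.a0 (i + k); have := h.a0 (i + 2 * k); have := h.a0 (i + 3 * k)
  have := h.a0 (i + 4 * k)
  have := h.a1 (i + k); have := h.a1 (i + 2 * k); have := h.a1 (i + 3 * k)
  have := h.a1 (i + 4 * k)
  simp only [cl, one_mul] at *
  rcases h.five hk i with h5 | h5 | h5 | h5 | h5 <;> omega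

section four

variable {a₁ b₁ κ₁ a₂ b₂ κ₂ a₃ b₃ κ₃ : ℕ → ℤ}

theorem one_even (hk : 0 < k) (h : Blk k a b κ) (h₁ : Blk k a₁ b₁ κ₁) (h₂ : Blk k a₂ b₂ κ₂)
    (h₃ : Blk k a₃ b₃ κ₃) (hκ : ∀ i, κ i + κ₁ i + κ₂ i + κ₃ i = 5) (i : ℕ) (he : κ i % 2 = 0) :
    κ₁ i % 2 = 1 ∧ κ₂ i % 2 = 1 ∧ κ₃ i % 2 = 1 := by
  have := h.mass hk i; have := h₁.mass hk i; have := h₂.mass hk i; have := h₃.mass hk i
  have := hκ i; have := hκ (i + k); have := hκ (i + 2 * k); have := hκ (i + 3 * k)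
  have := hκ (i + 4 * k)
  simp only [cl] at *
  omega

theorem no_zero (hk : 0 < k) (h : Blk k a b κ) (h₁ : Blk k a₁ b₁ κ₁) (h₂ : Blk k a₂ b₂ κ₂)
    (h₃ : Blk k a₃ b₃ κ₃) (hκ : ∀ i, κ i + κ₁ i + κ₂ i + κ₃ i = 5)
    (ha : ∀ i, a i + a₁ i + a₂ i + a₃ i = 1) (i₀ : ℕ) : 1 ≤ κ i₀ := by
  by_contra hc
  have h0 := h.k0 i₀
  refine h.not_all (back (P := fun i => κ i = 0) (N := 5 * k) (by omega)
    (fun i hi => by rw [h.pk]; exact hi) (fun i hi => ?_) (i₀ := i₀) (by omega))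
  by_contra hne
  have e := h.rc i
  have := h.k0 i; have := h.b0 i; have := h.a1 i
  have := h.a0 i; have := h.a0 (i + k); have := h.a0 (i + 2 * k); have := h.a0 (i + 3 * k)
  have := h.a0 (i + 4 * k)
  have := h₁.a0 i; have := h₂.a0 i; have := h₃.a0 i
  have hout : ∀ s, 0 < s → s < 5 → κ₁ (i + 1 + s * k) = 1 ∧ κ₂ (i + 1 + s * k) = 1 ∧
      κ₃ (i + 1 + s * k) = 1 := fun s h2 h3 => by
    have := h.two_zero hk (i + 1) s h2 h3
    have := h.par (i + 1) s
    have := one_even hk h h₁ h₂ h₃ hκ (i + 1 + s * k) (by omega)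
    have := hκ (i + 1 + s * k)
    have := h₁.k0 (i + 1 + s * k); have := h₂.k0 (i + 1 + s * k); have := h₃.k0 (i + 1 + s * k)
    omega
  have s0 := ha i; have := ha (i + k); have := ha (i + 2 * k); have := ha (i + 3 * k)
  have := ha (i + 4 * k)
  have hai : a i = 1 ∧ cl k a i = 1 := by simp only [cl] at *; omega
  have := h₁.small hk i (by omega) fun s h2 h3 => (hout s h2 h3).1
  have := h₂.small hk i (by omega) fun s h2 h3 => (hout s h2 h3).2.1
  have := h₃.small hk i (by omega) fun s h2 h3 => (hout s h2 h3).2.2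
  simp only [cl] at *
  omega

theorem a_le_b (hk : 0 < k) (h : Blk k a b κ) (h₁ : Blk k a₁ b₁ κ₁) (h₂ : Blk k a₂ b₂ κ₂)
    (h₃ : Blk k a₃ b₃ κ₃) (hκ : ∀ i, κ i + κ₁ i + κ₂ i + κ₃ i = 5)
    (ha : ∀ i, a i + a₁ i + a₂ i + a₃ i = 1) (i : ℕ) : a i ≤ b i := by
  have n0 := no_zero hk h h₁ h₂ h₃ hκ ha
  have n1 := no_zero hk h₁ h h₂ h₃ (fun i => by have := hκ i; omega)
    (fun i => by have := ha i; omega)
  have n2 := no_zero hk h₂ h h₁ h₃ (fun i => by have := hκ i; omega)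
    (fun i => by have := ha i; omega)
  have n3 := no_zero hk h₃ h h₁ h₂ (fun i => by have := hκ i; omega)
    (fun i => by have := ha i; omega)
  have hper : ∀ j s, κ (j + s * k) = κ j := fun j s => by
    have := h.par j s
    have := hκ j; have := hκ (j + s * k)
    have := n0 j; have := n1 j; have := n2 j; have := n3 j
    have := n0 (j + s * k); have := n1 (j + s * k); have := n2 (j + s * k); have := n3 (j + s * k)
    omega
  by_contra hc
  have e0 := h.rc i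
  have e : ∀ s, a (i + s * k) = 1 ∧ a₁ (i + s * k) = 0 ∧ a₂ (i + s * k) = 0 ∧
      a₃ (i + s * k) = 0 := fun s => by
    have := h.rc (i + s * k)
    rw [h.cl_mul, add_right_comm, hper, hper] at this
    have := h.a1 (i + s * k); have := h.b0 (i + s * k); have := ha (i + s * k)
    have := h₁.a0 (i + s * k); have := h₂.a0 (i + s * k); have := h₃.a0 (i + s * k)
    omega
  have := e 0; have := e 1; have := e 2; have := e 3; have := e 4
  have := h₁.rc i; have := h₂.rc i; have := h₃.rc i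
  have := hκ i; have := n0 i; have := n1 i; have := n2 i; have := n3 i
  simp only [cl, zero_mul, add_zero, one_mul] at *
  omega

theorem a_eq_b (hk : 0 < k) (h : Blk k a b κ) (h₁ : Blk k a₁ b₁ κ₁) (h₂ : Blk k a₂ b₂ κ₂)
    (h₃ : Blk k a₃ b₃ κ₃) (hκ : ∀ i, κ i + κ₁ i + κ₂ i + κ₃ i = 5)
    (ha : ∀ i, a i + a₁ i + a₂ i + a₃ i = 1) (hb : ∀ i, b i + b₁ i + b₂ i + b₃ i = 1) (i : ℕ) :
    a i = b i := by
  have := a_le_b hk h h₁ h₂ h₃ hκ ha i
  have := a_le_b hk h₁ h h₂ h₃ (fun i => by have := hκ i; omega)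
    (fun i => by have := ha i; omega) i
  have := a_le_b hk h₂ h h₁ h₃ (fun i => by have := hκ i; omega)
    (fun i => by have := ha i; omega) i
  have := a_le_b hk h₃ h h₁ h₂ (fun i => by have := hκ i; omega)
    (fun i => by have := ha i; omega) i
  have := ha i; have := hb i
  omega

end four

end Pool.Agent.MP_942673_co.Dob

end

section

/-! From congruences modulo `2 ^ (5 k) - 1` to carries. -/

open Finset

namespace Pool.Agent.MP_942673_co.Dob

/-- the number with binary digits in `A` -/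
def val {n : ℕ} (A : Finset (Fin n)) : ℕ := ∑ t ∈ A, 2 ^ t.val

/-- the periodic digit sequence of `A` -/
def dig {n : ℕ} (A : Finset (Fin n)) (i : ℕ) : ℤ := if ∃ t ∈ A, t.val = i % n then 1 else 0

/-- value of the window of length `n` starting at `i` -/
def win (n : ℕ) (a : ℕ → ℤ) (i : ℕ) : ℤ := ∑ m ∈ range n, a (i + m) * 2 ^ m

theorem win_step {n : ℕ} {a : ℕ → ℤ} (ha : ∀ i, a (i + n) = a i) (i : ℕ) :
    2 * win n a (i + 1) = win n a i + a i * (2 ^ n - 1) := by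
  have h1 := sum_range_succ (fun m => a (i + m) * 2 ^ m) n
  have h2 := sum_range_succ' (fun m => a (i + m) * 2 ^ m) n
  have h3 : 2 * win n a (i + 1) = ∑ m ∈ range n, a (i + (m + 1)) * 2 ^ (m + 1) := by
    rw [win, mul_sum]
    refine sum_congr rfl fun m _ => ?_
    rw [show i + 1 + m = i + (m + 1) by ring]; ring
  rw [ha] at h1
  simp only [add_zero, pow_zero, mul_one] at h2
  rw [h3, win]
  linear_combination h1 - h2

theorem win_shift {n : ℕ} {a : ℕ → ℤ} (ha : ∀ i, a (i + n) = a i) (i : ℕ) :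
    (2 ^ n - 1 : ℤ) ∣ 2 ^ i * win n a i - win n a 0 := by
  induction i with
  | zero => simp
  | succ i ih =>
    have : 2 ^ (i + 1) * win n a (i + 1) - win n a 0 =
        (2 ^ i * win n a i - win n a 0) + (2 ^ n - 1) * (2 ^ i * a i) := by
      linear_combination 2 ^ i * win_step ha i
    rw [this]
    exact dvd_add ih (dvd_mul_right _ _)

theorem dig_per {n : ℕ} (A : Finset (Fin n)) (i : ℕ) : dig A (i + n) = dig A i := by
  simp only [dig, Nat.add_mod_right]

theorem dig_fin {n : ℕ} (A : Finset (Fin n)) (t : Fin n) :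
    dig A t = if t ∈ A then 1 else 0 := by
  simp only [dig, Nat.mod_eq_of_lt t.2, Fin.val_inj, exists_eq_right]

theorem dig_mod {n : ℕ} (hn : 0 < n) (A : Finset (Fin n)) (i : ℕ) :
    dig A i = if (⟨i % n, Nat.mod_lt _ hn⟩ : Fin n) ∈ A then 1 else 0 := by
  rw [← dig_fin]; simp only [dig, Nat.mod_mod]

theorem win_dig {n : ℕ} (A : Finset (Fin n)) : win n (dig A) 0 = val A := by
  rw [win, val, ← Fin.sum_univ_eq_sum_range (fun m => dig A (0 + m) * 2 ^ m)]
  simp only [zero_add, dig_fin, ite_mul, one_mul, zero_mul, sum_ite_mem, univ_inter]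
  push_cast; rfl

theorem win_one (n i : ℕ) : win n (fun _ => 1) i = 2 ^ n - 1 := by
  have := win_step (n := n) (a := fun _ => 1) (fun _ => rfl) i
  have e : win n (fun _ => 1) (i + 1) = win n (fun _ => 1) i := rfl
  rw [e] at this
  linarith

theorem exists_blk {k : ℕ} (hk : 0 < k) {A B : Finset (Fin (5 * k))}
    (hne : A.Nonempty ∨ B.Nonempty)
    (hd : (2 ^ (5 * k) - 1 : ℤ) ∣ 2 * val B +
      (2 ^ (4 * k) + 2 ^ (3 * k) + 2 ^ (2 * k) + 2 ^ k - 1) * val A) :
    ∃ κ, Blk k (dig A) (dig B) κ ∧ ∀ i, (2 ^ (5 * k) - 1) * κ i =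
      win (5 * k) (fun i => cl k (dig A) i + 2 * dig B i - 2 * dig A i) i := by
  obtain ⟨u, hu⟩ : ∃ u : ℕ → ℤ, u = fun i => cl k (dig A) i + 2 * dig B i - 2 * dig A i :=
    ⟨_, rfl⟩
  rw [← hu]
  have hpa := dig_per A
  have hup : ∀ i, u (i + 5 * k) = u i := fun i => by
    simp only [hu, cl, dig_per, add_right_comm i (5 * k)]
  have hM : (0 : ℤ) < 2 ^ (5 * k) - 1 := by
    have : (1 : ℤ) < 2 ^ (5 * k) := one_lt_pow₀ (by norm_num) (by omega)
    linarith
  have a0 : ∀ (C : Finset (Fin (5 * k))) i, 0 ≤ dig C i := fun C i => by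
    unfold dig; split_ifs <;> norm_num
  have a1 : ∀ (C : Finset (Fin (5 * k))) i, dig C i ≤ 1 := fun C i => by
    unfold dig; split_ifs <;> norm_num
  have h0 : (2 ^ (5 * k) - 1 : ℤ) ∣ win (5 * k) u 0 := by
    have e : win (5 * k) u 0 = win (5 * k) (dig A) 0 + win (5 * k) (dig A) k +
        win (5 * k) (dig A) (2 * k) + win (5 * k) (dig A) (3 * k) + win (5 * k) (dig A) (4 * k) +
        2 * win (5 * k) (dig B) 0 - 2 * win (5 * k) (dig A) 0 := by
      simp only [win, hu, cl, mul_sum, ← sum_add_distrib, ← sum_sub_distrib, zero_add]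
      refine sum_congr rfl fun m _ => ?_
      simp only [add_comm m]; ring
    obtain ⟨c1, e1⟩ := win_shift hpa k
    obtain ⟨c2, e2⟩ := win_shift hpa (2 * k)
    obtain ⟨c3, e3⟩ := win_shift hpa (3 * k)
    obtain ⟨c4, e4⟩ := win_shift hpa (4 * k)
    obtain ⟨c, ec⟩ := hd
    rw [e, win_dig, win_dig]
    rw [win_dig] at e1 e2 e3 e4
    simp only [pow_mul'] at *
    refine ⟨c + (2 ^ k) ^ 4 * c1 + (2 ^ k) ^ 3 * c2 + (2 ^ k) ^ 2 * c3 + 2 ^ k * c4 -
      (win (5 * k) (dig A) k + win (5 * k) (dig A) (2 * k) + win (5 * k) (dig A) (3 * k) +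
        win (5 * k) (dig A) (4 * k)), ?_⟩
    linear_combination ec + (2 ^ k) ^ 4 * e1 + (2 ^ k) ^ 3 * e2 + (2 ^ k) ^ 2 * e3 + 2 ^ k * e4
  have hdv : ∀ i, (2 ^ (5 * k) - 1 : ℤ) ∣ win (5 * k) u i := fun i => by
    have h1 : (2 ^ (5 * k) - 1 : ℤ) ∣ 2 ^ i * win (5 * k) u i := by
      simpa using dvd_add (win_shift hup i) h0
    refine IsCoprime.dvd_of_dvd_mul_left (IsCoprime.pow_right ?_) h1
    obtain ⟨m, hm⟩ : ∃ m, 5 * k = m + 1 := ⟨5 * k - 1, by omega⟩
    exact ⟨-1, 2 ^ m, by rw [hm]; ring⟩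
  choose κ hκ using hdv
  refine ⟨κ, ⟨a0 A, a1 A, a0 B, fun i => ?_, hpa, fun i => ?_, fun i => ?_, ?_⟩,
    fun i => (hκ i).symm⟩
  · have hpos : 0 < win (5 * k) (fun j => u j + 1) i := by
      have hu1 : ∀ j, 0 ≤ u j + 1 := fun j => by
        have := a0 A j; have := a0 A (j + k); have := a0 A (j + 2 * k); have := a0 A (j + 3 * k)
        have := a0 A (j + 4 * k); have := a0 B j; have := a1 A j
        simp only [hu, cl]; omega
      refine sum_pos' (fun m _ => mul_nonneg (hu1 _) (by positivity)) ?_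
      have : 0 < u (i + 0) + 1 ∨ 0 < u (i + k) + 1 := by
        have := a0 A i; have := a0 A (i + k); have := a0 A (i + 2 * k); have := a0 A (i + 3 * k)
        have := a0 A (i + 4 * k); have := a0 B i; have := a1 A i; have := a1 A (i + k)
        have := a0 A (i + k + k); have := a0 A (i + k + 2 * k); have := a0 A (i + k + 3 * k)
        have := a0 A (i + k + 4 * k); have := a0 B (i + k)
        simp only [hu, cl, add_zero]; omega
      rcases this with h | h
      · exact ⟨0, mem_range.2 (by omega), mul_pos h (by positivity)⟩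
      · exact ⟨k, mem_range.2 (by omega), mul_pos h (by positivity)⟩
    have e : win (5 * k) (fun j => u j + 1) i = win (5 * k) u i + (2 ^ (5 * k) - 1) := by
      rw [← win_one (5 * k) i]
      simp only [win, add_mul, sum_add_distrib]
    rw [e, hκ i] at hpos
    have : 0 < (2 ^ (5 * k) - 1 : ℤ) * (κ i + 1) := by linarith
    have := (mul_pos_iff_of_pos_left hM).1 this
    omega
  · refine mul_left_cancel₀ hM.ne' ?_
    rw [← hκ, ← hκ]
    simp only [win, add_right_comm i (5 * k), hup]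
  · refine mul_left_cancel₀ hM.ne' ?_
    have := win_step hup i
    rw [hκ, hκ] at this
    simp only [hu] at this
    linear_combination this
  · rcases hne with ⟨t, ht⟩ | ⟨t, ht⟩
    · exact ⟨t, Or.inl (by rw [dig_fin, if_pos ht])⟩
    · exact ⟨t, Or.inr (by rw [dig_fin, if_pos ht])⟩

theorem diag4 {k : ℕ} (hk : 0 < k) (A B : Fin 4 → Finset (Fin (5 * k)))
    (hne : ∀ j, (A j).Nonempty ∨ (B j).Nonempty)
    (hd : ∀ j, (2 ^ (5 * k) - 1 : ℤ) ∣ 2 * val (B j) +
      (2 ^ (4 * k) + 2 ^ (3 * k) + 2 ^ (2 * k) + 2 ^ k - 1) * val (A j))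
    (hA : ∀ t, ∑ j, (if t ∈ A j then (1 : ℤ) else 0) = 1)
    (hB : ∀ t, ∑ j, (if t ∈ B j then (1 : ℤ) else 0) = 1) : A 0 = B 0 := by
  choose κ h hκ using fun j => exists_blk hk (hne j) (hd j)
  have ha : ∀ i, dig (A 0) i + dig (A 1) i + dig (A 2) i + dig (A 3) i = 1 := fun i => by
    have := hA ⟨i % (5 * k), Nat.mod_lt _ (by omega)⟩
    rw [Fin.sum_univ_four] at this
    simp only [dig_mod (show 0 < 5 * k by omega)]
    exact this
  have hb : ∀ i, dig (B 0) i + dig (B 1) i + dig (B 2) i + dig (B 3) i = 1 := fun i => by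
    have := hB ⟨i % (5 * k), Nat.mod_lt _ (by omega)⟩
    rw [Fin.sum_univ_four] at this
    simp only [dig_mod (show 0 < 5 * k by omega)]
    exact this
  have hM : (0 : ℤ) < 2 ^ (5 * k) - 1 := by
    have : (1 : ℤ) < 2 ^ (5 * k) := one_lt_pow₀ (by norm_num) (by omega)
    linarith
  have hs : ∀ i, κ 0 i + κ 1 i + κ 2 i + κ 3 i = 5 := fun i => by
    refine mul_left_cancel₀ hM.ne' ?_
    rw [mul_add, mul_add, mul_add, hκ, hκ, hκ, hκ, ← win_one (5 * k) i]
    simp only [win, ← sum_add_distrib, sum_mul, cl]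
    refine sum_congr rfl fun m _ => ?_
    linear_combination 2 ^ m * (ha (i + m + k) + ha (i + m + 2 * k) + ha (i + m + 3 * k) +
      ha (i + m + 4 * k) + 2 * hb (i + m) - ha (i + m))
  ext t
  have := a_eq_b hk (h 0) (h 1) (h 2) (h 3) hs ha hb t
  rw [dig_fin, dig_fin] at this
  by_cases h1 : t ∈ A 0 <;> by_cases h2 : t ∈ B 0 <;> simp_all

end Pool.Agent.MP_942673_co.Dob

end

section

/-! Moments of finite families, unordered pairs, and power sums in characteristic two. -/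

open Finset

namespace Pool.Agent.MP_942673_co.Dob

/-- unordered pairs of distinct elements -/
abbrev Pr (ι : Type) [Fintype ι] : Type :=
  {p : ι × ι // Fintype.equivFin ι p.1 < Fintype.equivFin ι p.2}

theorem sum_pr {ι M : Type} [Fintype ι] [AddCommMonoid M] (g : ι × ι → M) :
    ∑ p, g p = ∑ π : Pr ι, (g π.1 + g π.1.swap) + ∑ i, g (i, i) := by
  classical
  obtain ⟨κ, hκ⟩ : ∃ κ, κ = Fintype.equivFin ι := ⟨_, rfl⟩
  have h1 : ∀ p : ι × ι, g p = (if κ p.1 < κ p.2 then g p else 0) +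
      (if κ p.swap.1 < κ p.swap.2 then g p else 0) + if p.2 = p.1 then g p else 0 := by
    rintro ⟨a, b⟩
    rcases lt_trichotomy (κ a) (κ b) with h | h | h
    · have : b ≠ a := by rintro rfl; exact lt_irrefl _ h
      simp [h, h.not_gt, this]
    · obtain rfl := κ.injective h
      simp
    · have : b ≠ a := by rintro rfl; exact lt_irrefl _ h
      simp [h, h.not_gt, this]
  rw [sum_congr rfl fun p _ => h1 p, sum_add_distrib, sum_add_distrib, sum_add_distrib]
  congr 1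
  · congr 1
    · rw [← sum_filter, hκ]
      exact sum_subtype _ (by simp) _
    · rw [← Equiv.sum_comp (Equiv.prodComm ι ι)]
      simp only [Equiv.prodComm_apply, Prod.swap_swap]
      rw [← sum_filter, hκ]
      exact sum_subtype _ (by simp) (fun p : ι × ι => g p.swap)
  · rw [Fintype.sum_prod_type]
    simp

theorem sum_pr_add {ι E : Type} [Fintype ι] [AddCommMonoid E] (hE : ∀ u : E, u + u = 0)
    (S : ι → E) (g : E → ℤ) : ∑ p : ι × ι, g (S p.1 + S p.2) =
      2 * ∑ π : Pr ι, g (S π.1.1 + S π.1.2) + Fintype.card ι * g 0 := by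
  rw [sum_pr, mul_sum]
  simp only [hE, sum_const, card_univ, nsmul_eq_mul, Prod.fst_swap, Prod.snd_swap, two_mul,
    add_comm (S (_ : ι × ι).2)]

theorem card_pr (ι : Type) [Fintype ι] :
    (Fintype.card ι : ℤ) ^ 2 = 2 * Fintype.card (Pr ι) + Fintype.card ι := by
  have := sum_pr (ι := ι) (fun _ => (1 : ℤ))
  simp only [sum_const, card_univ, nsmul_eq_mul, Fintype.card_prod] at this
  push_cast at this
  linarith

variable {τ K : Type} [DecidableEq τ] [Field K]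

/-- the moment of a family -/
def mom {ι : Type} [Fintype ι] (c : τ → ι → K) (T : Finset τ) : K := ∑ i, ∏ t ∈ T, c t i

theorem mom_conv {ι κ : Type} [Fintype ι] [Fintype κ] (c : τ → ι → K) (c' : τ → κ → K)
    (T : Finset τ) : mom (fun t (p : ι × κ) => c t p.1 + c' t p.2) T =
      ∑ Y ∈ T.powerset, mom c Y * mom c' (T \ Y) := by
  simp only [mom, prod_add, sum_mul_sum, ← Fintype.sum_prod_type']
  rw [sum_comm]

theorem mom_sq0 {ι : Type} [Fintype ι] (c : τ → ι → K) {T : Finset τ} {t0 : τ} (h : t0 ∈ T) :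
    ∑ p : ι × ι, c t0 p.1 * ∏ t ∈ T.erase t0, (c t p.1 + c t p.2) =
      ∑ Y ∈ T.powerset with t0 ∈ Y, mom c Y * mom c (T \ Y) := by
  have := mom_conv c (fun t j => if t = t0 then 0 else c t j) T
  rw [sum_filter]
  convert this using 1
  · refine sum_congr rfl fun p _ => ?_
    rw [← mul_prod_erase T _ h]
    simp only [if_true, add_zero]
    congr 1
    exact prod_congr rfl fun t ht => by rw [if_neg (ne_of_mem_erase ht)]
  · refine sum_congr rfl fun Y _ => ?_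
    split_ifs with h1
    · congr 1
      refine sum_congr rfl fun j _ => prod_congr rfl fun t ht => ?_
      refine (if_neg ?_).symm
      rintro rfl
      exact (mem_sdiff.1 ht).2 h1
    · symm
      refine mul_eq_zero_of_right _ (sum_eq_zero fun j _ => prod_eq_zero (i := t0) ?_ (by simp))
      exact mem_sdiff.2 ⟨h, h1⟩

theorem mom_sq [CharP K 2] {ι : Type} [Fintype ι] (c : τ → ι → K) {T : Finset τ} {t0 : τ}
    (h : t0 ∈ T) (h0 : mom c {t0} = 0) :
    mom (fun t (π : Pr ι) => c t π.1.1 + c t π.1.2) T =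
      ∑ Y ∈ T.powerset with t0 ∈ Y, mom c Y * mom c (T \ Y) := by
  rw [← mom_sq0 c h, sum_pr]
  simp only [CharTwo.add_self_eq_zero, prod_const, ← sum_mul]
  rw [mom] at h0
  simp only [prod_singleton] at h0
  rw [h0, zero_mul, add_zero]
  refine sum_congr rfl fun π _ => ?_
  rw [← mul_prod_erase T _ h, add_mul]
  simp only [Prod.fst_swap, Prod.snd_swap, add_comm (c _ π.1.2)]

omit [DecidableEq τ] in
theorem mom_empty [CharP K 2] {ι : Type} [Fintype ι] (c : τ → ι → K)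
    (h : (2 : ℤ) ∣ Fintype.card ι) : mom c ∅ = 0 := by
  simp only [mom, prod_empty, sum_const, card_univ, nsmul_eq_mul, mul_one]
  exact (CharP.cast_eq_zero_iff K 2 _).2 (by exact_mod_cast h)

omit [DecidableEq τ] in
theorem mom_pow [CharP K 2] [Fintype K] (wt : τ → ℕ) (hw : ∀ t, 0 < wt t) (X : Finset τ) :
    mom (fun t (y : K) => y ^ wt t) X =
      if X.Nonempty ∧ Fintype.card K - 1 ∣ ∑ t ∈ X, wt t then 1 else 0 := by
  classical
  simp only [mom, prod_pow_eq_pow_sum]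
  rcases X.eq_empty_or_nonempty with rfl | hX
  · simp
  have hi : ∑ t ∈ X, wt t ≠ 0 := (sum_pos (fun t _ => hw t) hX).ne'
  generalize ∑ t ∈ X, wt t = i at hi
  let φ : Kˣ ↪ K := ⟨fun x => x, Units.val_injective⟩
  have : univ.map φ = univ \ {0} := by
    ext x
    simpa only [mem_map, mem_univ, Function.Embedding.coeFn_mk, true_and, mem_sdiff,
      mem_singleton, φ] using! isUnit_iff_ne_zero
  calc
    ∑ x : K, x ^ i = ∑ x ∈ univ \ {(0 : K)}, x ^ i := by
      rw [← sum_sdiff ({0} : Finset K).subset_univ, sum_singleton, zero_pow hi, add_zero]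
    _ = ∑ x : Kˣ, (x ^ i : K) := by simp [φ, ← this, univ.sum_map φ]
    _ = _ := by simp [FiniteField.sum_pow_units K i, hX, CharTwo.neg_eq]

/-- If all moments but the top one vanish, the multiplicities are constant modulo two. -/
theorem cnt_const [CharP K 2] {α β E ι : Type} [Fintype α] [Fintype β] [DecidableEq α]
    [DecidableEq β] [Nonempty α] [Nonempty β] [AddCommGroup E] [DecidableEq E] [Fintype ι]
    (hE : ∀ u : E, u + u = 0) (c : α ⊕ β → E → K) (hc : ∀ t u v, c t (u + v) = c t u + c t v)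
    (h1 : ∀ u, (1 + ∏ a, c (.inl a) u) * (1 + ∏ b, c (.inr b) u) = if u = 0 then 1 else 0)
    (S : ι → E) (h0 : ∀ T, T ≠ univ → mom (fun t i => c t (S i)) T = 0) (u v : E) :
    (2 : ℤ) ∣ ∑ i, (if S i = u then 1 else 0) - ∑ i, (if S i = v then 1 else 0) := by
  have key : ∀ u : E, ((∑ i, (if S i = u then 1 else 0) : ℤ) : K) =
      mom (fun t i => c t (S i)) univ := by
    intro u
    have h2 : ∀ T, mom (fun t i => c t (S i + u)) T =
        if T = univ then mom (fun t i => c t (S i)) univ else 0 := by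
      intro T
      simp only [mom, hc, prod_add]
      rw [sum_comm]
      simp only [← sum_mul]
      split_ifs with hT
      · subst hT
        refine (sum_eq_single univ (fun Y _ hY => mul_eq_zero_of_left (h0 Y hY) _)
          (by simp)).trans ?_
        simp [mom]
      · refine sum_eq_zero fun Y hY => mul_eq_zero_of_left (h0 Y ?_) _
        rintro rfl
        exact hT (eq_univ_of_forall fun t => mem_powerset.1 hY (mem_univ t))
    have h3 : ∀ i, (S i = u) = (S i + u = 0) := fun i => propext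
      ⟨fun h => by rw [h, hE], fun h => by rw [← add_zero (S i), ← hE u, ← add_assoc, h, zero_add]⟩
    have e0 := h2 ∅
    have e1 := h2 (univ.map .inl)
    have e2 := h2 (univ.map .inr)
    have e3 := h2 univ
    rw [if_neg univ_nonempty.ne_empty.symm] at e0
    rw [if_neg fun h => by simpa using h.ge (mem_univ (.inr (Classical.arbitrary β)))] at e1
    rw [if_neg fun h => by simpa using h.ge (mem_univ (.inl (Classical.arbitrary α)))] at e2
    rw [if_pos rfl] at e3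
    push_cast
    simp only [h3, ← h1]
    rw [← e3, ← add_zero (mom _ _), ← e0, ← add_zero (mom _ univ), ← e1,
      ← add_zero (mom _ univ), ← e2]
    simp only [mom, ← sum_add_distrib, prod_map, Fintype.prod_sum_type, prod_empty,
      Function.Embedding.inl_apply, Function.Embedding.inr_apply]
    exact sum_congr rfl fun i _ => by ring
  refine (CharP.intCast_eq_zero_iff K 2 _).1 ?_
  rw [Int.cast_sub, key, key, sub_self]

end Pool.Agent.MP_942673_co.Dob

end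

section

/-! Zero-sum blocks of the Dobbertin exponent and the vanishing of moments. -/

open Finset

namespace Pool.Agent.MP_942673_co.Dob

/-- the exponent attached to a position -/
def wt (k : ℕ) : Fin (5 * k) ⊕ Fin (5 * k) → ℕ :=
  Sum.elim (fun t => 2 * 2 ^ t.val)
    (fun t => (2 ^ (4 * k) + 2 ^ (3 * k) + 2 ^ (2 * k) + 2 ^ k - 1) * 2 ^ t.val)

/-- nonempty zero-sum blocks -/
def Zb (k : ℕ) (X : Finset (Fin (5 * k) ⊕ Fin (5 * k))) : Prop :=
  X.Nonempty ∧ 2 ^ (5 * k) - 1 ∣ ∑ t ∈ X, wt k t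

instance (k : ℕ) (X : Finset (Fin (5 * k) ⊕ Fin (5 * k))) : Decidable (Zb k X) := by
  unfold Zb; infer_instance

variable {k : ℕ}

theorem sum_wt (X : Finset (Fin (5 * k) ⊕ Fin (5 * k))) : ∑ t ∈ X, wt k t =
    2 * val X.toLeft + (2 ^ (4 * k) + 2 ^ (3 * k) + 2 ^ (2 * k) + 2 ^ k - 1) * val X.toRight := by
  conv_lhs => rw [← X.toLeft_disjSum_toRight, sum_disjSum]
  simp only [wt, val, mul_sum, Sum.elim_inl, Sum.elim_inr]

theorem fac (k : ℕ) : 2 ^ (5 * k) - 1 =
    (2 + (2 ^ (4 * k) + 2 ^ (3 * k) + 2 ^ (2 * k) + 2 ^ k - 1)) * (2 ^ k - 1) := by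
  simp only [pow_mul']
  obtain ⟨m, hm⟩ : ∃ m, 2 ^ k = m + 1 := ⟨2 ^ k - 1, by have := Nat.two_pow_pos k; omega⟩
  rw [hm, ← add_assoc, Nat.add_sub_cancel, Nat.add_sub_cancel]
  exact Nat.sub_eq_of_eq_add (by ring)

theorem nd {m i : ℕ} (t : ℕ) (h0 : 0 < i) (h : i < 2 ^ m - 1) : ¬ 2 ^ m - 1 ∣ i * 2 ^ t := by
  intro hd
  have hc : Nat.Coprime (2 ^ m - 1) (2 ^ t) := by
    refine Nat.Coprime.pow_right _ (Nat.coprime_two_right.2 ?_)
    rcases m with _ | m
    · simp at h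
    · rw [Nat.odd_iff, pow_succ] at *
      omega
  exact absurd (Nat.le_of_dvd h0 (hc.dvd_of_dvd_mul_right hd)) (by omega)

theorem not_zb_single (hk : 2 ≤ k) (t : Fin (5 * k) ⊕ Fin (5 * k)) : ¬ Zb k {t} := by
  rintro ⟨-, h⟩
  rw [sum_singleton] at h
  have h4 : 2 ^ 2 ≤ 2 ^ k := Nat.pow_le_pow_right (by norm_num) hk
  have h5 := fac k
  have h6 : 0 < 2 ^ (4 * k) + 2 ^ (3 * k) + 2 ^ (2 * k) + 2 ^ k - 1 := by
    generalize 2 ^ (4 * k) + 2 ^ (3 * k) + 2 ^ (2 * k) = a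
    omega
  have h7 : 3 ≤ 2 ^ k - 1 := by omega
  rcases t with t | t
  · exact nd t two_pos (by nlinarith) h
  · exact nd t h6 (by nlinarith) h

theorem zb_compl {X : Finset (Fin (5 * k) ⊕ Fin (5 * k))} (hX : X ≠ univ)
    (h : 2 ^ (5 * k) - 1 ∣ ∑ t ∈ X, wt k t) : Zb k Xᶜ := by
  refine ⟨nonempty_iff_ne_empty.2 (by simpa using hX), (Nat.dvd_add_right h).1 ?_⟩
  have hv : val (univ : Finset (Fin (5 * k))) = 2 ^ (5 * k) - 1 := by
    rw [val, Fin.sum_univ_eq_sum_range (fun t => 2 ^ t), Nat.geomSum_eq le_rfl]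
    simp
  rw [sum_add_sum_compl, sum_wt, show (univ : Finset (Fin (5 * k) ⊕ Fin (5 * k))).toLeft = univ by
    ext; simp, show (univ : Finset (Fin (5 * k) ⊕ Fin (5 * k))).toRight = univ by ext; simp, hv,
    ← add_mul]
  exact dvd_mul_left _ _

theorem zb_diag (hk : 0 < k) {X Y W : Finset (Fin (5 * k) ⊕ Fin (5 * k))} (hY : Y ⊆ X)
    (h1 : Zb k Y) (h2 : Zb k (X \ Y)) (hW : W ⊆ Xᶜ) (h3 : Zb k W) (h4 : Zb k (Xᶜ \ W)) :
    Y.toRight = Y.toLeft := by
  obtain ⟨Q, hQ⟩ : ∃ Q : Fin 4 → Finset (Fin (5 * k) ⊕ Fin (5 * k)),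
      Q = ![Y, X \ Y, W, Xᶜ \ W] := ⟨_, rfl⟩
  have hZ : ∀ j, Zb k (Q j) := fun j => by
    subst hQ
    fin_cases j
    exacts [h1, h2, h3, h4]
  have hs : ∀ t, ∑ j, (if t ∈ Q j then (1 : ℤ) else 0) = 1 := fun t => by
    have a1 := @hY t
    have a2 := @hW t
    rw [mem_compl] at a2
    rw [Fin.sum_univ_four, hQ]
    by_cases b1 : t ∈ X <;> by_cases b2 : t ∈ Y <;> by_cases b3 : t ∈ W <;> simp_all
  have := diag4 hk (fun j => (Q j).toRight) (fun j => (Q j).toLeft) (fun j => ?_) (fun j => ?_)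
    (fun t => by simpa only [mem_toRight] using hs (.inr t))
    (fun t => by simpa only [mem_toLeft] using hs (.inl t))
  · simpa [hQ] using this
  · obtain ⟨t | t, ht⟩ := (hZ j).1
    exacts [Or.inr ⟨t, mem_toLeft.2 ht⟩, Or.inl ⟨t, mem_toRight.2 ht⟩]
  · have h5 := Int.natCast_dvd_natCast.2 (hZ j).2
    rw [sum_wt] at h5
    have h6 : 1 ≤ 2 ^ (4 * k) + 2 ^ (3 * k) + 2 ^ (2 * k) + 2 ^ k :=
      le_add_left Nat.one_le_two_pow
    push_cast [Nat.cast_sub h6, Nat.cast_sub (Nat.one_le_two_pow (n := 5 * k))] at h5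
    exact h5

theorem zb_disjSum (C : Finset (Fin (5 * k))) :
    Zb k (C.disjSum C) ↔ C.Nonempty ∧ 2 ^ k - 1 ∣ ∑ t ∈ C, 2 ^ t.val := by
  rw [Zb, sum_wt, toLeft_disjSum, toRight_disjSum, ← add_mul, fac,
    Nat.mul_dvd_mul_iff_left (by omega), nonempty_iff_ne_empty, nonempty_iff_ne_empty, Ne,
    disjSum_eq_empty, and_self, val]

theorem par (hk : 2 ≤ k) {n : ℕ} {A : Finset (Fin n)} {t0 : Fin n} (h : t0 ∈ A) :
    2 ∣ #{C ∈ A.powerset.filter (t0 ∈ ·) | (C.Nonempty ∧ 2 ^ k - 1 ∣ ∑ t ∈ C, 2 ^ t.val) ∧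
      (A \ C).Nonempty ∧ 2 ^ k - 1 ∣ ∑ t ∈ A \ C, 2 ^ t.val} := by
  let _ : Fintype (GaloisField 2 k) := Fintype.ofFinite _
  have hc : Fintype.card (GaloisField 2 k) = 2 ^ k := by
    rw [← Nat.card_eq_fintype_card, GaloisField.card 2 k (by omega)]
  have hp := mom_pow (K := GaloisField 2 k) (fun t : Fin n => 2 ^ t.val) (fun _ => by positivity)
  have h1 := mom_sq0 (fun (t : Fin n) (y : GaloisField 2 k) => y ^ 2 ^ t.val) h
  have h0 := hp {t0}
  have h4 : 2 ^ 2 ≤ 2 ^ k := Nat.pow_le_pow_right (by norm_num) hk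
  rw [hc, if_neg (fun hh => nd (m := k) t0 one_pos (by omega) (by simpa using hh.2)), mom] at h0
  simp only [prod_singleton] at h0
  simp only [hp, hc, ← add_pow_char_pow] at h1
  rw [Fintype.sum_prod_type] at h1
  have h5 : ∀ z : GaloisField 2 k, ∑ i, ∏ t ∈ A.erase t0, (z + i) ^ 2 ^ t.val =
      ∑ i, ∏ t ∈ A.erase t0, i ^ 2 ^ t.val := fun z =>
    Equiv.sum_comp (Equiv.addLeft z) (fun u => ∏ t ∈ A.erase t0, u ^ 2 ^ t.val)
  simp only [← mul_sum, h5] at h1
  rw [← sum_mul, h0, zero_mul] at h1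
  refine (CharP.cast_eq_zero_iff (GaloisField 2 k) 2 _).1 ?_
  rw [card_filter, h1]
  push_cast
  exact sum_congr rfl fun C _ => by rw [ite_zero_mul_ite_zero, mul_one]

variable {K ι : Type} [Field K] [CharP K 2] [Fintype ι] {c : Fin (5 * k) ⊕ Fin (5 * k) → ι → K}

theorem card_pr_dvd {m : ℕ} (hι : Fintype.card ι = 2 ^ (m + 3)) :
    (4 : ℤ) ∣ Fintype.card (Pr ι) := by
  have := card_pr ι
  generalize (Fintype.card (Pr ι) : ℤ) = a at this
  rw [hι] at this
  push_cast at this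
  refine ⟨2 ^ m * (2 ^ (m + 3) - 1), mul_left_cancel₀ two_ne_zero ?_⟩
  linear_combination -this

theorem gam_ne (hk : 2 ≤ k) (hι : (2 : ℤ) ∣ Fintype.card (Pr ι))
    (hp : ∀ X, mom c X = if Zb k X then 1 else 0) {X : Finset (Fin (5 * k) ⊕ Fin (5 * k))}
    (h : mom (fun t (π : Pr ι) => c t π.1.1 + c t π.1.2) X ≠ 0) :
    ∃ Y ⊆ X, Zb k Y ∧ Zb k (X \ Y) := by
  rcases X.eq_empty_or_nonempty with rfl | ⟨t0, h0⟩
  · exact absurd (mom_empty _ hι) h
  rw [mom_sq c h0 (by rw [hp, if_neg (not_zb_single hk t0)])] at h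
  obtain ⟨Y, hY, h1⟩ := exists_ne_zero_of_sum_ne_zero h
  rw [hp, hp, ite_zero_mul_ite_zero] at h1
  exact ⟨Y, mem_powerset.1 (mem_filter.1 hY).1, by_contra fun h2 => h1 (if_neg h2)⟩

theorem gam_zb (hk : 2 ≤ k) (hι : (2 : ℤ) ∣ Fintype.card (Pr ι))
    (hp : ∀ X, mom c X = if Zb k X then 1 else 0) {X : Finset (Fin (5 * k) ⊕ Fin (5 * k))}
    (h : mom (fun t (π : Pr ι) => c t π.1.1 + c t π.1.2) X ≠ 0) : Zb k X := by
  obtain ⟨Y, hY, h1, h2⟩ := gam_ne hk hι hp h
  exact ⟨h1.1.mono hY, sum_sdiff (f := wt k) hY ▸ dvd_add h2.2 h1.2⟩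

theorem gam_zero (hk : 2 ≤ k) (hι : (2 : ℤ) ∣ Fintype.card (Pr ι))
    (hp : ∀ X, mom c X = if Zb k X then 1 else 0) {X W : Finset (Fin (5 * k) ⊕ Fin (5 * k))}
    (hW : W ⊆ Xᶜ) (h3 : Zb k W) (h4 : Zb k (Xᶜ \ W)) :
    mom (fun t (π : Pr ι) => c t π.1.1 + c t π.1.2) X = 0 := by
  by_contra h
  obtain ⟨Y, hY, h1, h2⟩ := gam_ne hk hι hp h
  have hd : ∀ Y ⊆ X, Zb k Y → Zb k (X \ Y) → Y = Y.toLeft.disjSum Y.toLeft := fun Y a b d => by
    conv_lhs => rw [← Y.toLeft_disjSum_toRight, zb_diag (by omega) a b d hW h3 h4]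
  obtain ⟨A, rfl⟩ : ∃ A : Finset (Fin (5 * k)), X = A.disjSum A := by
    refine ⟨X.toLeft, ?_⟩
    have e1 := hd Y hY h1 h2
    have e2 := hd (X \ Y) sdiff_subset h2 (by rwa [Finset.sdiff_sdiff_eq_self hY])
    rw [eq_disjSum_iff] at e1 e2 ⊢
    refine ⟨rfl, ?_⟩
    rw [← sdiff_union_of_subset hY, toLeft_union, toRight_union, e1.2, e2.2]
  have hsd : ∀ C : Finset (Fin (5 * k)),
      A.disjSum A \ C.disjSum C = (A \ C).disjSum (A \ C) := fun C => by
    ext (t | t) <;> simp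
  obtain ⟨t0, h0⟩ : A.Nonempty := ((zb_disjSum A).1 (gam_zb hk hι hp h)).1
  refine h ?_
  rw [mom_sq c (inl_mem_disjSum.2 h0) (by rw [hp, if_neg (not_zb_single hk _)])]
  simp only [hp, ite_zero_mul_ite_zero, mul_one, sum_boole]
  refine (CharP.cast_eq_zero_iff K 2 _).2 ?_
  convert par hk h0 using 1
  refine card_nbij' (fun Y => Y.toLeft) (fun C => C.disjSum C) ?_ ?_ ?_ ?_
  · intro Y hY
    simp only [coe_filter, mem_filter, mem_powerset, Set.mem_ofPred_eq] at hY ⊢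
    obtain ⟨⟨a1, a2⟩, a3, a4⟩ := hY
    rw [← zb_disjSum, ← zb_disjSum, ← hsd, ← hd Y a1 a3 a4]
    exact ⟨⟨by simpa using toLeft_subset_toLeft a1, mem_toLeft.2 a2⟩, a3, a4⟩
  · intro C hC
    simp only [coe_filter, mem_filter, mem_powerset, Set.mem_ofPred_eq] at hC ⊢
    rw [hsd, zb_disjSum, zb_disjSum]
    exact ⟨⟨disjSum_mono hC.1.1 hC.1.1, inl_mem_disjSum.2 hC.1.2⟩, hC.2⟩
  · intro Y hY
    simp only [coe_filter, mem_filter, mem_powerset, Set.mem_ofPred_eq] at hY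
    exact (hd Y hY.1.1 hY.2.1 hY.2.2).symm
  · intro C _
    exact toLeft_disjSum

theorem gam_zero' (hk : 2 ≤ k) (hι : (2 : ℤ) ∣ Fintype.card (Pr ι))
    (hp : ∀ X, mom c X = if Zb k X then 1 else 0) {T Y : Finset (Fin (5 * k) ⊕ Fin (5 * k))}
    (hT : T ≠ univ) (hY : Y ⊆ T) (h3 : Zb k Y) :
    mom (fun t (π : Pr ι) => c t π.1.1 + c t π.1.2) (T \ Y) = 0 := by
  by_contra h
  refine h (gam_zero hk hι hp (W := Y) (fun t ht => by simp [ht]) h3 ?_)
  have : (T \ Y)ᶜ \ Y = Tᶜ := by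
    ext t
    have := @hY t
    simp only [mem_sdiff, mem_compl]
    tauto
  rw [this]
  exact zb_compl hT (sum_sdiff (f := wt k) hY ▸ dvd_add (gam_zb hk hι hp h).2 h3.2)

theorem mom3 (hk : 2 ≤ k) (hι : (2 : ℤ) ∣ Fintype.card (Pr ι))
    (hp : ∀ X, mom c X = if Zb k X then 1 else 0) {T : Finset (Fin (5 * k) ⊕ Fin (5 * k))}
    (hT : T ≠ univ) :
    mom (fun t (p : ι × Pr ι) => c t p.1 + (c t p.2.1.1 + c t p.2.1.2)) T = 0 := by
  rw [mom_conv c (fun t (π : Pr ι) => c t π.1.1 + c t π.1.2)]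
  refine sum_eq_zero fun Y hY => ?_
  rw [hp]
  split_ifs with h
  · rw [gam_zero' hk hι hp hT (mem_powerset.1 hY) h, mul_zero]
  · exact zero_mul _

theorem mom4 (hk : 2 ≤ k) (hι : (4 : ℤ) ∣ Fintype.card (Pr ι))
    (hp : ∀ X, mom c X = if Zb k X then 1 else 0) {T : Finset (Fin (5 * k) ⊕ Fin (5 * k))}
    (hT : T ≠ univ) : mom (fun t (ρ : Pr (Pr ι)) =>
      (c t ρ.1.1.1.1 + c t ρ.1.1.1.2) + (c t ρ.1.2.1.1 + c t ρ.1.2.1.2)) T = 0 := by
  have h2 : (2 : ℤ) ∣ Fintype.card (Pr ι) := dvd_trans (by norm_num) hι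
  rcases T.eq_empty_or_nonempty with rfl | ⟨t0, h0⟩
  · refine mom_empty _ ?_
    obtain ⟨a, ha⟩ := hι
    have := card_pr (Pr ι)
    rw [ha] at this
    exact ⟨4 * a ^ 2 - a, mul_left_cancel₀ two_ne_zero (by linear_combination -this)⟩
  rw [mom_sq (fun t (π : Pr ι) => c t π.1.1 + c t π.1.2) h0
    (by_contra fun h => not_zb_single hk t0 (gam_zb hk h2 hp h))]
  refine sum_eq_zero fun Y hY => by_contra fun h => right_ne_zero_of_mul h ?_
  exact gam_zero' hk h2 hp hT (mem_powerset.1 (mem_filter.1 hY).1)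
    (gam_zb hk h2 hp (left_ne_zero_of_mul h))

end Pool.Agent.MP_942673_co.Dob

end

section

/-! The two congruences for the Dobbertin power map and the switching argument. -/

open Finset

namespace Pool.Agent.MP_942673_co

open Dob

variable {n : ℕ}

theorem congr_of_const {m : ℕ} (hn : n = m + 4) (H : (Fin n → ZMod 2) → (Fin n → ZMod 2))
    (S : (Fin n → ZMod 2) → (Fin n → ZMod 2) × (Fin n → ZMod 2)) (hS : ∀ x, S x = (x, H x))
    (h3 : ∀ u v, (2 : ℤ) ∣ ∑ p : (Fin n → ZMod 2) × Pr (Fin n → ZMod 2),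
      (if S p.1 + (S p.2.1.1 + S p.2.1.2) = u then 1 else 0) -
      ∑ p : (Fin n → ZMod 2) × Pr (Fin n → ZMod 2),
        (if S p.1 + (S p.2.1.1 + S p.2.1.2) = v then 1 else 0))
    (h4 : ∀ u v, (2 : ℤ) ∣ ∑ ρ : Pr (Pr (Fin n → ZMod 2)),
      (if (S ρ.1.1.1.1 + S ρ.1.1.1.2) + (S ρ.1.2.1.1 + S ρ.1.2.1.2) = u then 1 else 0) -
      ∑ ρ : Pr (Pr (Fin n → ZMod 2)),
        (if (S ρ.1.1.1.1 + S ρ.1.1.1.2) + (S ρ.1.2.1.1 + S ρ.1.2.1.2) = v then 1 else 0)) :
    (∀ u v : (Fin n → ZMod 2) × (Fin n → ZMod 2), (4 : ℤ) ∣ tri H u.1 u.2 + tri H v.1 v.2) ∧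
      ∀ w₁ w₂, (16 : ℤ) ∣ ∑ x, ((tri H x (H x) : ℤ) + tri H (x + w₁) (H x + w₂)) := by
  have hq : (Fintype.card (Fin n → ZMod 2) : ℤ) = 16 * 2 ^ m := by
    rw [card_V, hn]; push_cast; ring
  have ht : ∀ u : (Fin n → ZMod 2) × (Fin n → ZMod 2), (tri H u.1 u.2 : ℤ) =
      ∑ a, ∑ p : (Fin n → ZMod 2) × (Fin n → ZMod 2),
        (if S a + (S p.1 + S p.2) = u then 1 else 0) := fun u => by
    rw [tri, card_filter, Fintype.sum_prod_type]
    push_cast
    simp only [hS, Prod.ext_iff, Prod.fst_add, Prod.snd_add, add_assoc]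
  refine ⟨fun u v => ?_, fun w₁ w₂ => ?_⟩
  · obtain ⟨c, hc⟩ := h3 u v
    rw [ht, ht]
    simp only [fun a u => sum_pr_add e_add_self S (fun z => if S a + z = u then 1 else 0),
      sum_add_distrib, ← mul_sum, hq]
    simp only [Fintype.sum_prod_type] at hc
    rw [sub_eq_iff_eq_add] at hc
    rw [hc]
    simp only [mul_assoc]
    omega
  · have hw : ∀ w : (Fin n → ZMod 2) × (Fin n → ZMod 2), (16 : ℤ) ∣
        ∑ x, (tri H (S x + w).1 (S x + w).2 : ℤ) - 8 * ∑ ρ : Pr (Pr (Fin n → ZMod 2)),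
          (if (S ρ.1.1.1.1 + S ρ.1.1.1.2) + (S ρ.1.2.1.1 + S ρ.1.2.1.2) = w then 1 else 0) :=
      fun w => by
      have h5 : ∀ x a z, (S a + z = S x + w) = (S x + S a + z = w) := fun x a z => by
        rw [add_assoc, ← add_right_inj (S x), ← add_assoc _ _ w, e_add_self, zero_add]
      simp only [ht, h5]
      rw [← Fintype.sum_prod_type', sum_pr_add e_add_self S
        (fun y => ∑ p : _ × _, if y + (S p.1 + S p.2) = w then 1 else 0)]
      simp only [fun y => sum_pr_add e_add_self S (fun z => if y + z = w then 1 else 0),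
        sum_add_distrib, ← mul_sum]
      rw [← Fintype.sum_prod_type', sum_pr_add e_add_self
        (fun π : Pr (Fin n → ZMod 2) => S π.1.1 + S π.1.2) (fun z => if z = w then 1 else 0)]
      obtain ⟨a, ha⟩ := card_pr_dvd (ι := Fin n → ZMod 2) (m := m + 1) (by rw [card_V, hn])
      rw [ha, hq]
      simp only [mul_assoc]
      omega
    have e1 := hw 0
    have e2 := hw (w₁, w₂)
    have e3 := h4 0 (w₁, w₂)
    simp only [add_zero] at e1
    simp only [hS, Prod.mk_add_mk] at e1 e2 e3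
    rw [sum_add_distrib]
    omega

theorem dob_congr {k : ℕ} (hk : 2 ≤ k) {K : Type} [Field K] (e : K ≃+ (Fin (5 * k) → ZMod 2))
    {H : (Fin (5 * k) → ZMod 2) → (Fin (5 * k) → ZMod 2)}
    (hH : ∀ x, H x = e (e.symm x ^ (2 ^ (4 * k) + 2 ^ (3 * k) + 2 ^ (2 * k) + 2 ^ k - 1))) :
    (∀ u v : (Fin (5 * k) → ZMod 2) × (Fin (5 * k) → ZMod 2),
      (4 : ℤ) ∣ tri H u.1 u.2 + tri H v.1 v.2) ∧
      ∀ w₁ w₂, (16 : ℤ) ∣ ∑ x, ((tri H x (H x) : ℤ) + tri H (x + w₁) (H x + w₂)) := by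
  classical
  let _ : Fintype K := Fintype.ofEquiv _ e.toEquiv.symm
  have hc : Fintype.card K = 2 ^ (5 * k) := by rw [Fintype.card_congr e.toEquiv, card_V]
  have : CharP K 2 := CharTwo.of_one_ne_zero_of_two_eq_zero one_ne_zero (e.injective (by
    rw [← one_add_one_eq_two (R := K), map_add, v_add_self, map_zero]))
  have : Nonempty (Fin (5 * k)) := ⟨⟨0, by omega⟩⟩
  obtain ⟨c, hcd⟩ : ∃ c : Fin (5 * k) ⊕ Fin (5 * k) →
      (Fin (5 * k) → ZMod 2) × (Fin (5 * k) → ZMod 2) → K, c = Sum.elim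
        (fun t p => (e.symm p.1 ^ 2) ^ 2 ^ t.val) (fun t p => e.symm p.2 ^ 2 ^ t.val) := ⟨_, rfl⟩
  have ha : ∀ t u v, c t (u + v) = c t u + c t v := by
    rintro (t | t) u v <;> simp [hcd, add_pow_char_pow, CharTwo.add_sq]
  have hv : ∀ y : K, 1 + ∏ t : Fin (5 * k), y ^ 2 ^ t.val = if y = 0 then 1 else 0 := fun y => by
    rw [prod_pow_eq_pow_sum, Fin.sum_univ_eq_sum_range (fun t => 2 ^ t), Nat.geomSum_eq le_rfl,
      ← hc]
    split_ifs with h
    · rw [h, zero_pow (by have := Fintype.one_lt_card (α := K); omega), add_zero]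
    · rw [show 2 - 1 = 1 from rfl, Nat.div_one, FiniteField.pow_card_sub_one_eq_one y h,
        CharTwo.add_self_eq_zero]
  have h1 : ∀ u, (1 + ∏ a, c (.inl a) u) * (1 + ∏ b, c (.inr b) u) = if u = 0 then 1 else 0 := by
    intro u
    simp only [hcd, Sum.elim_inl, Sum.elim_inr, hv, ite_zero_mul_ite_zero, mul_one]
    simp [Prod.ext_iff]
  have hp : ∀ X, mom (fun t x => c t (x, H x)) X = if Zb k X then 1 else 0 := fun X => by
    have := mom_pow (K := K) (wt k) (fun t => ?_) X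
    · rw [hc] at this
      refine Eq.trans ?_ (this.trans (if_congr Iff.rfl rfl rfl))
      rw [mom, ← Equiv.sum_comp e.toEquiv]
      refine sum_congr rfl fun y _ => prod_congr rfl fun t _ => ?_
      rcases t with t | t <;> simp [hcd, hH, wt, pow_mul]
    · have h4 : 2 ^ 2 ≤ 2 ^ k := Nat.pow_le_pow_right (by norm_num) hk
      rcases t with t | t
      · exact mul_pos two_pos (Nat.two_pow_pos _)
      · refine mul_pos ?_ (Nat.two_pow_pos _)
        generalize 2 ^ (4 * k) + 2 ^ (3 * k) + 2 ^ (2 * k) = a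
        omega
  have h4 := card_pr_dvd (ι := Fin (5 * k) → ZMod 2) (m := 5 * k - 3)
    (by rw [card_V]; congr 1; omega)
  refine congr_of_const (m := 5 * k - 4) (by omega) H (fun x => (x, H x)) (fun _ => rfl)
    (cnt_const e_add_self c ha h1 _ fun T hT => ?_) (cnt_const e_add_self c ha h1 _ fun T hT => ?_)
  · simpa only [ha] using mom3 hk (dvd_trans (by norm_num) h4) hp hT
  · simpa only [ha] using mom4 hk h4 hp hT

theorem sum_eq_zero_of_tri (hn : 3 ≤ n) {H G F : (Fin n → ZMod 2) → (Fin n → ZMod 2)}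
    {s : Fin n → ZMod 2} (hs : s ≠ 0) {f : (Fin n → ZMod 2) → ZMod 2}
    (h4 : ∀ u v : (Fin n → ZMod 2) × (Fin n → ZMod 2), (4 : ℤ) ∣ tri H u.1 u.2 + tri H v.1 v.2)
    (h16 : ∀ w₁ w₂, (16 : ℤ) ∣ ∑ x, ((tri H x (H x) : ℤ) + tri H (x + w₁) (H x + w₂)))
    (hG : CCZ H G) (hF : CCZ (fun x => G x + f x • s) F)
    (hA : ∀ a, a ≠ 0 → ∀ b, (univ.filter fun x => F (x + a) + F x = b).card ≤ 2) :
    ∑ x, F x = 0 := by
  obtain ⟨A, π, hπ, hT⟩ := ccz_data hG
  obtain ⟨B, ρ, hρ, hU⟩ := ccz_data hF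
  obtain ⟨w, hw⟩ : ∃ w, A.linear w = (0, s) := A.linear.surjective _
  have key : ∀ x, (tri G (π x) (G (π x)) : ℤ) + tri G (π x) (G (π x) + s) =
      tri H x (H x) + tri H (x + w.1) (H x + w.2) := by
    intro x
    have e1 := hT (x, H x)
    have e2 := hT (w + (x, H x))
    rw [aff_add, hw, hπ] at e2
    rw [hπ] at e1
    simp only [Prod.mk_add_mk, zero_add, Prod.fst_add, Prod.snd_add] at e1 e2
    rw [e1, add_comm (G (π x)) s, e2, add_comm w.1, add_comm w.2]
  have key' : ∀ x, (tri (fun x => G x + f x • s) x (G x + f x • s) : ℤ) +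
      tri (fun x => G x + f x • s) x (G x + f x • s + s) = tri G x (G x) + tri G x (G x + s) := by
    intro x
    exact_mod_cast tri_switch G s f x
  have h0 : ∑ x, (G x + f x • s) = 0 := by
    refine sum_eq_zero_of_congr hn (F := fun x => G x + f x • s) (fun x => ?_) hs (fun x => ?_) ?_
    · have e1 := hU (x, G x + f x • s)
      rw [hρ] at e1
      rw [← e1]
      exact tri_apn hA _
    · obtain ⟨y, rfl⟩ := π.surjective x
      rw [key', key]
      exact h4 (y, H y) (y + w.1, H y + w.2)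
    · simp only [key']
      rw [← Equiv.sum_comp π]
      simp only [key]
      exact h16 _ _
  refine sum_ccz (by omega) hF ?_
  rw [← prod_mk_sum, h0, sum_id_eq_zero (by omega)]
  rfl

end Pool.Agent.MP_942673_co

end
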